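import Mathlib
import Pool.Agent.Lib.MP_1ef7cf_nt.Act

section

/-!
# MP_1ef7cf_nt, module ELT: the finite set of elements of a subgroup of a Galois group
-/

set_option linter.unusedSectionVars false

namespace Pool.Agent.STe

open Pool.Agent.ST

variable {K : Type*} [Field K] [NumberField K] [Algebra K ℝ]

section
variable {M : IntermediateField K ℝ} [FiniteDimensional K M]

/-- the elements of a subgroup -/
noncomputable def elts (Q : Subgroup (M ≃ₐ[K] M)) : Finset (M ≃ₐ[K] M) :=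
  (Set.toFinite (Q : Set (M ≃ₐ[K] M))).toFinset

lemma mem_elts {Q : Subgroup (M ≃ₐ[K] M)} {γ : M ≃ₐ[K] M} : γ ∈ elts Q ↔ γ ∈ Q :=
  Set.Finite.mem_toFinset _

end

end Pool.Agent.STe
end

section

/-!
# MP_1ef7cf_nt, module GRP: decomposition of a finite abelian group into its 2-part and its
odd part
-/

set_option linter.unusedSectionVars false

namespace Pool.Agent.STe

open Pool.Agent.ST

section abs

variable {G : Type*} [Group G]

/-- The elements of `Δ` killed by `n`. -/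
def torsub (hc : ∀ a b : G, a * b = b * a) (Δ : Subgroup G) (n : ℕ) : Subgroup G where
  carrier := {g | g ∈ Δ ∧ g ^ n = 1}
  mul_mem' := fun {a b} ha hb => ⟨Δ.mul_mem ha.1 hb.1, by
    rw [(show Commute a b from hc a b).mul_pow, ha.2, hb.2, one_mul]⟩
  one_mem' := ⟨Δ.one_mem, one_pow n⟩
  inv_mem' := fun {a} ha => ⟨Δ.inv_mem ha.1, by rw [inv_pow, ha.2, inv_one]⟩

lemma mem_torsub {hc : ∀ a b : G, a * b = b * a} {Δ : Subgroup G} {n : ℕ} {g : G} :
    g ∈ torsub hc Δ n ↔ g ∈ Δ ∧ g ^ n = 1 := Iff.rfl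

lemma eq_one_of_pow_coprime {g : G} {m n : ℕ} (h : Nat.Coprime m n) (hm : g ^ m = 1)
    (hn : g ^ n = 1) : g = 1 := by
  have h1 : orderOf g ∣ Nat.gcd m n :=
    Nat.dvd_gcd (orderOf_dvd_of_pow_eq_one hm) (orderOf_dvd_of_pow_eq_one hn)
  rw [h, Nat.dvd_one, orderOf_eq_one_iff] at h1
  exact h1

lemma exists_mul_torsub [Finite G] (hc : ∀ a b : G, a * b = b * a) (Δ : Subgroup G) {m n : ℕ}
    (h : Nat.Coprime m n) (hcard : Nat.card Δ = m * n) {g : G} (hg : g ∈ Δ) :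
    ∃ γ ∈ torsub hc Δ m, ∃ ρ ∈ torsub hc Δ n, g = γ * ρ := by
  have hpow : g ^ (m * n) = 1 := by
    rw [← hcard]
    have := pow_card_eq_one' (G := Δ) (x := ⟨g, hg⟩)
    exact congrArg (Subtype.val) this
  have hb : (1 : ℤ) = (m : ℤ) * Nat.gcdA m n + (n : ℤ) * Nat.gcdB m n := by
    have := Nat.gcd_eq_gcd_ab m n
    rw [h] at this
    exact_mod_cast this
  refine ⟨g ^ ((n : ℤ) * Nat.gcdB m n), ⟨Δ.zpow_mem hg _, ?_⟩,
    g ^ ((m : ℤ) * Nat.gcdA m n), ⟨Δ.zpow_mem hg _, ?_⟩, ?_⟩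
  · rw [← zpow_natCast, ← zpow_mul,
      show (n : ℤ) * Nat.gcdB m n * (m : ℤ) = ((m * n : ℕ) : ℤ) * Nat.gcdB m n by push_cast; ring,
      zpow_mul, zpow_natCast, hpow, one_zpow]
  · rw [← zpow_natCast, ← zpow_mul,
      show (m : ℤ) * Nat.gcdA m n * (n : ℤ) = ((m * n : ℕ) : ℤ) * Nat.gcdA m n by push_cast; ring,
      zpow_mul, zpow_natCast, hpow, one_zpow]
  · rw [← zpow_add, add_comm, ← hb, zpow_one]

lemma prod_torsub [Finite G] (hc : ∀ a b : G, a * b = b * a) (Δ : Subgroup G) {m n : ℕ}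
    (h : Nat.Coprime m n) (hcard : Nat.card Δ = m * n) {sΔ sQ sR : Finset G}
    (h1 : ∀ g, g ∈ sΔ ↔ g ∈ Δ) (h2 : ∀ g, g ∈ sQ ↔ g ∈ torsub hc Δ m)
    (h3 : ∀ g, g ∈ sR ↔ g ∈ torsub hc Δ n) {α : Type*} [CommMonoid α] (f : G → α) :
    ∏ δ ∈ sΔ, f δ = ∏ γ ∈ sQ, ∏ ρ ∈ sR, f (γ * ρ) := by
  rw [← Finset.prod_product']
  symm
  refine Finset.prod_bij (fun x _ => x.1 * x.2) ?_ ?_ ?_ ?_
  · rintro ⟨a, b⟩ hx
    rw [Finset.mem_product] at hx
    exact (h1 _).2 (Δ.mul_mem ((h2 _).1 hx.1).1 ((h3 _).1 hx.2).1)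
  · rintro ⟨a, b⟩ hx ⟨a', b'⟩ hx' he
    rw [Finset.mem_product] at hx hx'
    simp only at hx hx' he
    have ha := (h2 _).1 hx.1
    have hb := (h3 _).1 hx.2
    have ha' := (h2 _).1 hx'.1
    have hb' := (h3 _).1 hx'.2
    have e : a'⁻¹ * a = b' * b⁻¹ := by
      rw [inv_mul_eq_iff_eq_mul, ← mul_assoc, ← he, mul_inv_cancel_right]
    have e1 : a'⁻¹ * a = 1 := by
      refine eq_one_of_pow_coprime h ?_ ?_
      · exact ((torsub hc Δ m).mul_mem ((torsub hc Δ m).inv_mem ha') ha).2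
      · rw [e]; exact ((torsub hc Δ n).mul_mem hb' ((torsub hc Δ n).inv_mem hb)).2
    have e2 : a = a' := by rw [inv_mul_eq_one] at e1; exact e1.symm
    subst e2
    have e3 : b = b' := mul_left_cancel he
    rw [e3]
  · intro g hg
    obtain ⟨γ, hγ, ρ, hρ, he⟩ := exists_mul_torsub hc Δ h hcard ((h1 g).1 hg)
    exact ⟨(γ, ρ), Finset.mem_product.2 ⟨(h2 _).2 hγ, (h3 _).2 hρ⟩, he.symm⟩
  · intro x _; rfl

lemma card_torsub [Finite G] (hc : ∀ a b : G, a * b = b * a) (Δ : Subgroup G) {m n : ℕ}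
    (h : Nat.Coprime m n) (hcard : Nat.card Δ = m * n) {sΔ sQ sR : Finset G}
    (h1 : ∀ g, g ∈ sΔ ↔ g ∈ Δ) (h2 : ∀ g, g ∈ sQ ↔ g ∈ torsub hc Δ m)
    (h3 : ∀ g, g ∈ sR ↔ g ∈ torsub hc Δ n) : sΔ.card = sQ.card * sR.card := by
  have := prod_torsub hc Δ h hcard h1 h2 h3 (α := Multiplicative ℕ)
    (fun _ => Multiplicative.ofAdd 1)
  have h' := congrArg Multiplicative.toAdd this
  simpa [toAdd_prod, mul_comm] using h'

/-- a subgroup all of whose elements are killed by an odd number has odd order -/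
lemma odd_card_torsub [Finite G] (hc : ∀ a b : G, a * b = b * a) (Δ : Subgroup G) {n : ℕ}
    (hn : Odd n) {sR : Finset G} (h3 : ∀ g, g ∈ sR ↔ g ∈ torsub hc Δ n) : Odd sR.card := by
  have hc1 : sR.card = Nat.card (torsub hc Δ n) := by
    rw [Nat.card_congr (Equiv.subtypeEquivRight fun g => (h3 g).symm)]
    simp
  rw [hc1]
  by_contra hodd
  rw [Nat.not_odd_iff_even] at hodd
  obtain ⟨x, hx⟩ := exists_prime_orderOf_dvd_card' (G := torsub hc Δ n) 2 hodd.two_dvd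
  have h1 : (x : torsub hc Δ n) ^ n = 1 := Subtype.ext x.2.2
  have h2 := orderOf_dvd_of_pow_eq_one h1
  rw [hx] at h2
  obtain ⟨k, hk⟩ := hn
  omega

variable {G' : Type*} [Group G']

lemma card_fiber [Finite G] (R : Subgroup G) (r : G →* G') {d : G'} {ρ₀ : G} (hρ : ρ₀ ∈ R)
    (hd : r ρ₀ = d) {s t : Finset G} (hs : ∀ g, g ∈ s ↔ g ∈ R ∧ r g = d)
    (ht : ∀ g, g ∈ t ↔ g ∈ R ∧ r g = 1) : s.card = t.card := by
  refine Finset.card_bij' (fun g _ => ρ₀⁻¹ * g) (fun g _ => ρ₀ * g) ?_ ?_ ?_ ?_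
  · intro g hg
    rw [hs] at hg
    refine (ht _).2 ⟨R.mul_mem (R.inv_mem hρ) hg.1, ?_⟩
    rw [map_mul, map_inv, hd, hg.2, inv_mul_cancel]
  · intro g hg
    rw [ht] at hg
    refine (hs _).2 ⟨R.mul_mem hρ hg.1, ?_⟩
    rw [map_mul, hd, hg.2, mul_one]
  · intro g _; simp
  · intro g _; simp

theorem dec_abs [Finite G] (hc : ∀ a b : G, a * b = b * a) (Δ : Subgroup G) {m n : ℕ}
    (h : Nat.Coprime m n) (hcard : Nat.card Δ = m * n) {sQ sR : Finset G}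
    (h2 : ∀ g, g ∈ sQ ↔ g ∈ torsub hc Δ m)
    (h3 : ∀ g, g ∈ sR ↔ g ∈ torsub hc Δ n) (h2Q : 2 ∣ sQ.card) (r : G →* G')
    (hQ : ∀ γ ∈ torsub hc Δ m, r γ = 1) {D : Finset G'} (hD : ∀ δ, δ ∈ D ↔ ∃ g ∈ Δ, r g = δ)
    {κ : Type*} [CommMonoid κ] (f : G → κ) (hf : ∀ g γ, γ ∈ Δ → r γ = 1 → f (g * γ) = f g)
    (lift : G' → G) (hl : ∀ δ ∈ D, lift δ ∈ Δ ∧ r (lift δ) = δ) {sK : Finset G}
    (hK : ∀ g, g ∈ sK ↔ g ∈ Δ ∧ r g = 1) :
    ∏ δ ∈ D, f (lift δ) ^ (sK.card / 2) = (∏ ρ ∈ sR, f ρ) ^ (sQ.card / 2) := by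
  classical
  -- the kernel on the odd part
  set t : Finset G := sR.filter (fun g => r g = 1) with ht
  have ht' : ∀ g, g ∈ t ↔ g ∈ torsub hc Δ n ∧ r g = 1 := by
    intro g; rw [ht, Finset.mem_filter, h3]
  have hcK : sK.card = sQ.card * t.card := by
    have hb : sK.card = (sQ ×ˢ t).card := by
      symm
      refine Finset.card_bij (fun x _ => x.1 * x.2) ?_ ?_ ?_
      · rintro ⟨a, b⟩ hx
        rw [Finset.mem_product] at hx
        have ha := (h2 _).1 hx.1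
        have hb := (ht' _).1 hx.2
        refine (hK _).2 ⟨Δ.mul_mem ha.1 hb.1.1, ?_⟩
        rw [map_mul, hQ _ ha, hb.2, one_mul]
      · rintro ⟨a, b⟩ hx ⟨a', b'⟩ hx' he
        rw [Finset.mem_product] at hx hx'
        simp only at hx hx' he
        have ha := (h2 _).1 hx.1
        have hb := ((ht' _).1 hx.2).1
        have ha' := (h2 _).1 hx'.1
        have hb' := ((ht' _).1 hx'.2).1
        have e : a'⁻¹ * a = b' * b⁻¹ := by
          rw [inv_mul_eq_iff_eq_mul, ← mul_assoc, ← he, mul_inv_cancel_right]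
        have e1 : a'⁻¹ * a = 1 := by
          refine eq_one_of_pow_coprime h ?_ ?_
          · exact ((torsub hc Δ m).mul_mem ((torsub hc Δ m).inv_mem ha') ha).2
          · rw [e]; exact ((torsub hc Δ n).mul_mem hb' ((torsub hc Δ n).inv_mem hb)).2
        have e2 : a = a' := by rw [inv_mul_eq_one] at e1; exact e1.symm
        subst e2
        have e3 : b = b' := mul_left_cancel he
        rw [e3]
      · intro g hg
        have hg' := (hK g).1 hg
        obtain ⟨γ, hγ, ρ, hρ, he⟩ := exists_mul_torsub hc Δ h hcard hg'.1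
        refine ⟨(γ, ρ), Finset.mem_product.2 ⟨(h2 _).2 hγ, (ht' _).2 ⟨hρ, ?_⟩⟩, he.symm⟩
        have h5 := hg'.2
        rw [he, map_mul, hQ _ hγ, one_mul] at h5
        exact h5
    rw [hb, Finset.card_product]
  have hprod : ∏ ρ ∈ sR, f ρ = ∏ δ ∈ D, f (lift δ) ^ t.card := by
    have hmaps : ∀ ρ ∈ sR, r ρ ∈ D := by
      intro ρ hρ
      exact (hD _).2 ⟨ρ, ((h3 _).1 hρ).1, rfl⟩
    rw [← Finset.prod_fiberwise_of_maps_to hmaps]
    refine Finset.prod_congr rfl fun δ hδ => ?_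
    obtain ⟨hl1, hl2⟩ := hl δ hδ
    have hconst : ∀ ρ ∈ sR.filter (fun g => r g = δ), f ρ = f (lift δ) := by
      intro ρ hρ
      rw [Finset.mem_filter, h3] at hρ
      have e := hf ρ (ρ⁻¹ * lift δ) (Δ.mul_mem (Δ.inv_mem hρ.1.1) hl1)
        (by rw [map_mul, map_inv, hρ.2, hl2, inv_mul_cancel])
      rw [mul_inv_cancel_left] at e
      exact e.symm
    rw [Finset.prod_congr rfl hconst, Finset.prod_const]
    congr 1
    obtain ⟨γ, hγ, ρ, hρ, he⟩ := exists_mul_torsub hc Δ h hcard hl1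
    have hρδ : r ρ = δ := by
      rw [he, map_mul, hQ _ hγ, one_mul] at hl2
      exact hl2
    exact card_fiber (torsub hc Δ n) r hρ hρδ
      (fun g => by rw [Finset.mem_filter, h3]) ht'
  rw [hprod, ← Finset.prod_pow]
  refine Finset.prod_congr rfl fun δ _ => ?_
  rw [← pow_mul, hcK]
  congr 1
  obtain ⟨q, hq⟩ := h2Q
  rw [hq, mul_assoc, Nat.mul_div_cancel_left _ (by norm_num), Nat.mul_div_cancel_left _ (by norm_num),
    mul_comm]

end abs

variable {K : Type*} [Field K] [NumberField K] [Algebra K ℝ]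

section
variable {M : IntermediateField K ℝ} [FiniteDimensional K M]

/-- decomposition of a subgroup of the Galois group into its 2-part and its odd part -/
theorem exists_dec [IsAbelianGalois K M] (Δ : Subgroup (M ≃ₐ[K] M))
    (h2 : 2 ∣ (elts Δ).card) :
    ∃ Q R : Subgroup (M ≃ₐ[K] M), Q ≤ Δ ∧ R ≤ Δ ∧
      (∀ f : (M ≃ₐ[K] M) → ℝ, ∏ δ ∈ elts Δ, f δ = ∏ γ ∈ elts Q, ∏ ρ ∈ elts R, f (γ * ρ)) ∧
      (4 ∣ (elts Δ).card → 4 ∣ (elts Q).card) ∧
      ∀ (F : IntermediateField K ℝ) (hF : F ≤ M) [Normal K F] (D : Finset (F ≃ₐ[K] F)),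
        (∀ δ, δ ∈ D ↔ ∃ g ∈ Δ, res hF g = δ) → Odd D.card →
        (∀ γ ∈ Q, res hF γ = 1) ∧
        ∀ (κ : Type) [CommMonoid κ] (f : (M ≃ₐ[K] M) → κ),
          (∀ g γ, γ ∈ Δ → res hF γ = 1 → f (g * γ) = f g) →
          ∀ lift : (F ≃ₐ[K] F) → (M ≃ₐ[K] M), (∀ δ ∈ D, lift δ ∈ Δ ∧ res hF (lift δ) = δ) →
          ∀ c : ℕ, (∀ s : Finset (M ≃ₐ[K] M), (∀ g, g ∈ s ↔ g ∈ Δ ∧ res hF g = 1) → s.card = c) →
          ∏ δ ∈ D, f (lift δ) ^ (c / 2) = (∏ ρ ∈ elts R, f ρ) ^ ((elts Q).card / 2) := by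
  classical
  have hc : ∀ a b : (M ≃ₐ[K] M), a * b = b * a := fun a b => mul_comm' a b
  have : Finite (M ≃ₐ[K] M) := inferInstance
  obtain ⟨a, b, hb, hab⟩ := Nat.exists_eq_two_pow_mul_odd (n := Nat.card Δ) Nat.card_pos.ne'
  have hcop : Nat.Coprime (2 ^ a) b := Nat.Coprime.pow_left _ (Nat.coprime_two_left.2 hb)
  have e1 : ∀ g, g ∈ elts Δ ↔ g ∈ Δ := fun g => mem_elts
  have e2 : ∀ g, g ∈ elts (torsub hc Δ (2 ^ a)) ↔ g ∈ torsub hc Δ (2 ^ a) := fun g => mem_elts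
  have e3 : ∀ g, g ∈ elts (torsub hc Δ b) ↔ g ∈ torsub hc Δ b := fun g => mem_elts
  have hcd := card_torsub hc Δ hcop hab e1 e2 e3
  have hodd := odd_card_torsub hc Δ hb e3
  have h2Q : 2 ∣ (elts (torsub hc Δ (2 ^ a))).card := by
    rw [hcd] at h2
    exact (Nat.Coprime.dvd_of_dvd_mul_right (Nat.coprime_two_left.2 hodd) h2)
  refine ⟨torsub hc Δ (2 ^ a), torsub hc Δ b, fun g hg => hg.1, fun g hg => hg.1,
    fun f => prod_torsub hc Δ hcop hab e1 e2 e3 f, ?_, ?_⟩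
  · intro h4
    rw [hcd] at h4
    exact Nat.Coprime.dvd_of_dvd_mul_right
      (show Nat.Coprime (2 ^ 2) _ from Nat.Coprime.pow_left 2 (Nat.coprime_two_left.2 hodd)) h4
  · intro F hF _ D hD hDodd
    have hQ : ∀ γ ∈ torsub hc Δ (2 ^ a), res hF γ = 1 := by
      intro γ hγ
      have hcD : D.card = Nat.card (Δ.map (res hF)) := by
        rw [← Nat.card_congr (Equiv.subtypeEquivRight fun g =>
          (show g ∈ D ↔ g ∈ Δ.map (res hF) by rw [hD, Subgroup.mem_map]))]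
        simp
      refine eq_one_of_pow_coprime (m := 2 ^ a) (n := D.card) ?_ ?_ ?_
      · exact Nat.Coprime.pow_left _ (Nat.coprime_two_left.2 hDodd)
      · rw [← map_pow, hγ.2, map_one]
      · rw [hcD]
        have := pow_card_eq_one' (G := Δ.map (res hF))
          (x := ⟨res hF γ, Subgroup.mem_map_of_mem _ hγ.1⟩)
        exact congrArg (Subtype.val) this
    refine ⟨hQ, ?_⟩
    intro κ _ f hf lift hl c hcs
    have hK : ∀ g, g ∈ (elts Δ).filter (fun g => res hF g = 1) ↔ g ∈ Δ ∧ res hF g = 1 := by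
      intro g; rw [Finset.mem_filter, mem_elts]
    have := dec_abs hc Δ hcop hab e2 e3 h2Q (res hF) hQ hD f hf lift hl hK
    rw [hcs _ hK] at this
    exact this

end

end Pool.Agent.STe
end

section

/-!
# MP_1ef7cf_nt, module KSA: abstract form of the Kolyvagin argument
-/

namespace Pool.Agent.STe

private lemma ksa_card_mul {G G' : Type*} [Group G] [Group G'] (r : G →* G') (E : Subgroup G) :
    Nat.card (E ⊓ r.ker : Subgroup G) * Nat.card (E.map r) = Nat.card E := by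
  have h1 := Subgroup.relIndex_mul_relIndex (⊥ : Subgroup G) (r.ker ⊓ E) E bot_le inf_le_right
  rw [Subgroup.relIndex_bot_left, Subgroup.relIndex_bot_left, Subgroup.inf_relIndex_right,
    Subgroup.relIndex_ker, inf_comm] at h1
  exact h1

/-- abstract form of the Kolyvagin argument -/
theorem ksa {G κ : Type*} [CommGroup G] [Finite G] [Field κ] (A B : G → κ)
    (hA : ∀ g, A g ≠ 0) (hB : ∀ g, B g ≠ 0) (Γ Θ : Subgroup G) (Φ : G) (f p e e' : ℕ)
    (h4 : 4 ∣ e) (hee : e ∣ e') (he' : e' ∣ p - 1) (he0 : 0 < e') (hp : 0 < p)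
    (hAΓ : ∀ g, ∀ γ ∈ Γ, A (g * γ) = A g) (hBΓ : ∀ g, ∀ γ ∈ Γ, B (g * γ) = B g)
    (hAΦ : ∀ g, A (g * Φ) = A g ^ p) (hBΦ : ∀ g, B (g * Φ) = B g ^ p)
    (hAB : ∀ g, A g ^ e' = B g ^ (p - 1))
    (hcard : e' ∣ Nat.card ((Γ ⊔ Subgroup.zpowers (Φ ^ f)) ⊓ Θ : Subgroup G) * (e / 4))
    (T : Finset G) (hT : ∀ g, g ∈ T ↔ g ∈ Θ) (g : G) {b : κ}
    (hb : ∏ t ∈ T, B (g * t) = b ^ (e' / e)) :
    (∏ t ∈ T, A (g * t)) ^ (e / 4) = b ^ ((p - 1) / 4) := by
  classical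
  have _ := hA
  obtain ⟨k₃, rfl⟩ := h4
  obtain ⟨k₁, rfl⟩ := hee
  obtain ⟨k₂, hk₂⟩ := he'
  have hk₃0 : 0 < k₃ := by
    rcases Nat.eq_zero_or_pos k₃ with h | h
    · subst h; simp at he0
    · exact h
  have e1 : 4 * k₃ / 4 = k₃ := Nat.mul_div_cancel_left _ (by norm_num)
  have e2 : 4 * k₃ * k₁ / (4 * k₃) = k₁ := Nat.mul_div_cancel_left _ (by positivity)
  have e3 : (p - 1) / 4 = k₁ * k₂ * k₃ := by
    rw [hk₂, show 4 * k₃ * k₁ * k₂ = 4 * (k₁ * k₂ * k₃) by ring]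
    exact Nat.mul_div_cancel_left _ (by norm_num)
  have hpe : p = 4 * k₃ * k₁ * k₂ + 1 := by omega
  rw [e1] at hcard ⊢
  rw [e2] at hb
  rw [e3]
  set z : G → κ := fun x => A x / B x ^ k₂ with hz
  have hz1 : ∀ x, z x ^ (4 * k₃ * k₁) = 1 := by
    intro x
    rw [hz]
    simp only [div_pow]
    rw [hAB, ← pow_mul, hk₂, mul_comm k₂]
    exact div_self (pow_ne_zero _ (hB x))
  have hzΓ : ∀ x, ∀ γ ∈ Γ, z (x * γ) = z x := by
    intro x γ hγ
    simp only [hz]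
    rw [hAΓ x γ hγ, hBΓ x γ hγ]
  have hzΦ : ∀ x, z (x * Φ) = z x := by
    intro x
    have h1 : z (x * Φ) = z x ^ p := by
      simp only [hz]
      rw [hAΦ, hBΦ, div_pow, ← pow_mul, ← pow_mul, mul_comm p k₂]
    rw [h1, hpe, pow_succ, pow_mul, hz1, one_pow, one_mul]
  -- the elements under which `z` is invariant
  let E₀ : Subgroup G :=
    { carrier := {c | ∀ x, z (x * c) = z x}
      one_mem' := fun x => by rw [mul_one]
      mul_mem' := by
        intro c d hc hd x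
        rw [← mul_assoc, hd, hc]
      inv_mem' := by
        intro c hc x
        have := hc (x * c⁻¹)
        rw [inv_mul_cancel_right] at this
        exact this.symm }
  have hE : Γ ⊔ Subgroup.zpowers (Φ ^ f) ≤ E₀ := by
    rw [sup_le_iff]
    refine ⟨fun γ hγ x => hzΓ x γ hγ, ?_⟩
    rw [Subgroup.zpowers_le]
    exact E₀.pow_mem (x := Φ) (fun x => hzΦ x) f
  set D : Subgroup G := (Γ ⊔ Subgroup.zpowers (Φ ^ f)) ⊓ Θ with hD
  have hzD : ∀ x, ∀ c ∈ D, z (x * c) = z x := fun x c hc => hE hc.1 x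
  have hprod : (∏ t ∈ T, z (g * t)) ^ k₃ = 1 := by
    rw [← Finset.prod_fiberwise_of_maps_to (s := T)
      (t := T.image (fun t : G => (QuotientGroup.mk t : G ⧸ D)))
      (g := fun t : G => (QuotientGroup.mk t : G ⧸ D))
      (fun t ht => Finset.mem_image_of_mem _ ht), ← Finset.prod_pow]
    refine Finset.prod_eq_one fun q hq => ?_
    obtain ⟨t₀, ht₀, rfl⟩ := Finset.mem_image.1 hq
    have hfib : (T.filter (fun t : G => (QuotientGroup.mk t : G ⧸ D) = QuotientGroup.mk t₀)) =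
        (Set.toFinite (D : Set G)).toFinset.image (fun d => t₀ * d) := by
      ext t
      rw [Finset.mem_filter, Finset.mem_image]
      constructor
      · rintro ⟨ht, hq⟩
        have h1 : t₀⁻¹ * t ∈ D := QuotientGroup.eq.1 hq.symm
        exact ⟨t₀⁻¹ * t, (Set.Finite.mem_toFinset _).2 h1, by group⟩
      · rintro ⟨d, hd, rfl⟩
        have hd' : d ∈ D := (Set.Finite.mem_toFinset _).1 hd
        refine ⟨(hT _).2 (Θ.mul_mem ((hT _).1 ht₀) hd'.2), ?_⟩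
        rw [eq_comm, QuotientGroup.eq, inv_mul_cancel_left]
        exact hd'
    have hcardfib : (T.filter (fun t : G => (QuotientGroup.mk t : G ⧸ D) = QuotientGroup.mk t₀)).card = Nat.card D := by
      rw [hfib, Finset.card_image_of_injective _ (mul_right_injective t₀)]
      exact (Nat.card_eq_card_finite_toFinset (Set.toFinite (D : Set G))).symm
    have hconst : ∏ t ∈ T.filter (fun t : G => (QuotientGroup.mk t : G ⧸ D) = QuotientGroup.mk t₀), z (g * t) =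
        z (g * t₀) ^ Nat.card D := by
      rw [← hcardfib, ← Finset.prod_const]
      refine Finset.prod_congr rfl fun t ht => ?_
      have h1 : t₀⁻¹ * t ∈ D := QuotientGroup.eq.1 (Finset.mem_filter.1 ht).2.symm
      have h2 := hzD (g * t₀) _ h1
      rw [mul_assoc, mul_inv_cancel_left] at h2
      exact h2
    rw [hconst, ← pow_mul]
    obtain ⟨j, hj⟩ := hcard
    rw [hj, pow_mul, hz1, one_pow]
  have hAz : ∀ x, A x = z x * B x ^ k₂ := by
    intro x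
    simp only [hz]
    exact (div_mul_cancel₀ _ (pow_ne_zero _ (hB x))).symm
  calc (∏ t ∈ T, A (g * t)) ^ k₃ = (∏ t ∈ T, (z (g * t) * B (g * t) ^ k₂)) ^ k₃ := by
        congr 1
        exact Finset.prod_congr rfl fun t _ => hAz _
    _ = (∏ t ∈ T, z (g * t)) ^ k₃ * ((∏ t ∈ T, B (g * t)) ^ k₂) ^ k₃ := by
        rw [Finset.prod_mul_distrib, mul_pow, Finset.prod_pow]
    _ = b ^ (k₁ * k₂ * k₃) := by
        rw [hprod, hb, one_mul, ← pow_mul, ← pow_mul, mul_assoc]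

theorem ksb {G G₁ G₂ : Type*} [CommGroup G] [Finite G] [Group G₁] [Group G₂] [Finite G₁]
    [Finite G₂] (r₁ : G →* G₁) (r₂ : G →* G₂) (Δ : Subgroup G₁) (Φ : G) (f e e' : ℕ)
    (h4 : 4 ∣ e) (he : Nat.card Δ = e) (he' : Nat.card r₂.ker = e')
    (h1 : ∀ γ ∈ r₂.ker, r₁ γ ∈ Δ) (h2 : r₁ (Φ ^ f) ∈ Δ) (ho : 4 ∣ orderOf (r₂ (Φ ^ f))) :
    e' ∣ Nat.card ((r₂.ker ⊔ Subgroup.zpowers (Φ ^ f)) ⊓ r₁.ker : Subgroup G) * (e / 4) := by
  obtain ⟨k, rfl⟩ := h4
  obtain ⟨o, ho⟩ := ho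
  rw [Nat.mul_div_cancel_left _ (by norm_num : 0 < 4)]
  set E : Subgroup G := r₂.ker ⊔ Subgroup.zpowers (Φ ^ f) with hE
  have hc1 := ksa_card_mul r₁ E
  have hc2 := ksa_card_mul r₂ E
  have hk : E ⊓ r₂.ker = r₂.ker := inf_eq_right.2 le_sup_left
  have hmap : E.map r₂ = Subgroup.zpowers (r₂ (Φ ^ f)) := by
    rw [hE, Subgroup.map_sup, (Subgroup.map_eq_bot_iff _).2 le_rfl, bot_sup_eq,
      MonoidHom.map_zpowers]
  rw [hk, hmap, Nat.card_zpowers, he', ho] at hc2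
  have hle : E.map r₁ ≤ Δ := by
    rw [Subgroup.map_le_iff_le_comap, hE, sup_le_iff, Subgroup.zpowers_le]
    exact ⟨fun γ hγ => h1 γ hγ, h2⟩
  obtain ⟨j, hj⟩ := Subgroup.card_dvd_of_le hle
  rw [he] at hj
  refine ⟨o * j, ?_⟩
  have h5 : 4 * (Nat.card (E ⊓ r₁.ker : Subgroup G) * k) = 4 * (e' * (o * j)) := by
    calc 4 * (Nat.card (E ⊓ r₁.ker : Subgroup G) * k)
        = Nat.card (E ⊓ r₁.ker : Subgroup G) * (4 * k) := by ring
      _ = Nat.card (E ⊓ r₁.ker : Subgroup G) * Nat.card (E.map r₁) * j := by rw [hj, mul_assoc]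
      _ = e' * (4 * o) * j := by rw [hc1, ← hc2]
      _ = 4 * (e' * (o * j)) := by ring
  exact Nat.eq_of_mul_eq_mul_left (by norm_num) h5

end Pool.Agent.STe
end
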