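import Pool.Agent.Lib.MP_1ef7cf_nt.Mg.G005
import Pool.Agent.Lib.MP_1ef7cf_nt_b.FinalT
import Pool.Agent.Lib.MP_1ef7cf_nt_d.FUL
import Pool.Agent.Lib.MP_1ef7cf_nt_c.Mg.G006

section

/-!
# Units which are squares
-/

set_option linter.unusedSectionVars false

open NumberField IsDedekindDomain nonZeroDivisors IntermediateField

namespace Pool.Agent.STe

open Pool.Agent.ST Pool.Agent.STb Pool.Agent.STd

variable {K : Type*} [Field K] [NumberField K]

lemma unit_isSquare {w : (𝓞 K)ˣ} (h : IsSquare ((w : 𝓞 K) : K)) : IsSquare w := by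
  obtain ⟨t, ht⟩ := h
  have ht0 : t ≠ 0 := by
    rintro rfl
    rw [mul_zero] at ht
    exact coe_ne_zero' w.ne_zero ht
  have h1 : IsIntegral ℤ t := by
    apply IsIntegral.of_pow (n := 2) (by norm_num)
    rw [pow_two, ← ht]
    exact RingOfIntegers.isIntegral_coe _
  have h2 : IsIntegral ℤ t⁻¹ := by
    apply IsIntegral.of_pow (n := 2) (by norm_num)
    rw [pow_two, ← mul_inv, ← ht]
    have h3 : (((w⁻¹ : (𝓞 K)ˣ) : 𝓞 K) : K) = (((w : 𝓞 K) : K))⁻¹ := by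
      apply eq_inv_of_mul_eq_one_left
      have h4 : ((w⁻¹ : (𝓞 K)ˣ) : 𝓞 K) * (w : 𝓞 K) = 1 := Units.inv_mul w
      have h5 := congrArg (algebraMap (𝓞 K) K) h4
      rwa [map_mul, map_one] at h5
    rw [← h3]
    exact RingOfIntegers.isIntegral_coe _
  let a : 𝓞 K := ⟨t, h1⟩
  let b : 𝓞 K := ⟨t⁻¹, h2⟩
  have hab : a * b = 1 := by
    apply RingOfIntegers.coe_injective
    change t * t⁻¹ = 1
    exact mul_inv_cancel₀ ht0
  refine ⟨⟨a, b, hab, by rw [mul_comm, hab]⟩, ?_⟩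
  apply Units.ext
  apply RingOfIntegers.coe_injective
  exact ht

end Pool.Agent.STe
end

section

/-!
# The square root condition follows from the conditions 1-3: final form
-/

open NumberField IsDedekindDomain nonZeroDivisors IntermediateField

namespace Pool.Agent.STc

open Pool.Agent.ST Pool.Agent.STb

variable {K : Type*} [Field K] [NumberField K] [Algebra K ℝ] {σ₂ : K →+* ℝ}

/-- final form -/
theorem final_sqrt (hK : Module.finrank ℚ K = 2) (hσ : σ₂ ≠ algebraMap K ℝ)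
    {m : Ideal (𝓞 K)} (hm : m ≠ ⊥)
    (hm2 : ∀ v : HeightOneSpectrum (𝓞 K), (2 : 𝓞 K) ∈ v.asIdeal → v.asIdeal ∣ m)
    (hS : ∀ n : Ideal (𝓞 K), n ≠ ⊥ → n ≤ m → ∃ (H : IntermediateField K ℝ)
      (Art : RayClassGroup σ₂ n ≃* (H ≃ₐ[K] H)) (u : ℝ), SData σ₂ n H Art u)
    {H : IntermediateField K ℝ} {Art : RayClassGroup σ₂ m ≃* (H ≃ₐ[K] H)}
    {Z : RayClassGroup σ₂ m → ℂ → ℂ}
    {ε : RayClassGroup σ₂ m → (𝓞 H)ˣ} (hH : IsRayClassField σ₂ m H Art)
    (hZ : ∀ A, IsPartialZeta σ₂ m A (Z A))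
    (hε : ∀ A, ((((ε A : 𝓞 H) : H) : ℝ) : ℂ) = Complex.exp (-2 * deriv (Z A) 0))
    (hact : ∀ A B, Art B ((ε A : 𝓞 H) : H) = ((ε (A * B) : 𝓞 H) : H))
    (habs : ∀ A, ∀ g : H →+* ℂ, (∀ a : K, g (algebraMap K H a) = (σ₂ a : ℂ)) →
      ‖g ((ε A : 𝓞 H) : H)‖ = 1)
    (A : RayClassGroup σ₂ m) :
    IsAbelianGalois K (H ⊔ K⟮√((((ε A : 𝓞 H) : H) : ℝ))⟯ : IntermediateField K ℝ) := by
  have hm1 := ne_top_of_two hm2
  obtain ⟨hd, he⟩ := stark_data hH hZ hε hact habs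
  have hfin := hH.finite
  have hgal := hH.galois
  have hab : IsAbelianGalois K H := hH.isRCF.abelian
  have key := sqrt_full hK hσ hm hm1 hm2 hS hd
  have h6 := sqrt_act_mem hd.pre.mem hd.pre.pos (Art A)
  rw [← he A] at h6
  exact isAbelianGalois_of_le (sqrtExt_le (le_sqrtExt H _) h6)

end Pool.Agent.STc
end
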