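import Pool.Agent.Lib.MP_1ef7cf_nt_e.INR
import Pool.Agent.Lib.MP_1ef7cf_nt_e.Mg.G001
import Pool.Agent.Lib.MP_1ef7cf_nt_e.RAD
import Pool.Agent.Lib.MP_1ef7cf_nt_e.TRL
import Pool.Agent.Lib.MP_1ef7cf_nt_e.Mg.G003

section

/-!
# The Kolyvagin congruence for two primes: invariance of the element `z` under the second Frobenius
-/

set_option linter.unusedSectionVars false

open NumberField IsDedekindDomain nonZeroDivisors IntermediateField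

namespace Pool.Agent.STe

open Pool.Agent.ST Pool.Agent.STb Pool.Agent.STd
open Pool.Agent.STc (IsInt rd IsUn)

section fibres

variable {K : Type*} [Field K] [Algebra K ℝ] {H H₁ H₂ H₃ : IntermediateField K ℝ}

lemma ksi_card_ker (h : H ≤ H₁) [FiniteDimensional K H₁] [Normal K H] :
    Nat.card (res h).ker = (fib h (1 : H ≃ₐ[K] H)).card := by
  rw [← Nat.card_eq_finsetCard]
  refine Nat.card_congr (Equiv.subtypeEquivRight fun γ => ?_)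
  rw [mem_fib, MonoidHom.mem_ker]

/-- The restriction `Gal(H₃ / H₁) → Gal(H₂ / H)` is surjective with fibres of the same size. -/
lemma ksi_prod_res (h01 : H ≤ H₁) (h02 : H ≤ H₂) (h13 : H₁ ≤ H₃) (h23 : H₂ ≤ H₃)
    [FiniteDimensional K H₁] [FiniteDimensional K H₂] [FiniteDimensional K H₃]
    [IsAbelianGalois K H₃] [Normal K H₁] [Normal K H₂] [Normal K H]
    (hinf : H₂ ⊓ H₁ ≤ H) :
    ∃ c : ℕ, (fib h01 (1 : H ≃ₐ[K] H)).card * c = (fib h23 (1 : H₂ ≃ₐ[K] H₂)).card ∧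
      ∀ (κ : Type) [CommMonoid κ] (f : (H₂ ≃ₐ[K] H₂) → κ),
        ∏ t ∈ fib h13 (1 : H₁ ≃ₐ[K] H₁), f (res h23 t) =
          (∏ α ∈ fib h02 (1 : H ≃ₐ[K] H), f α) ^ c := by
  classical
  set c := ((fib h13 (1 : H₁ ≃ₐ[K] H₁)).filter (fun t => res h23 t = 1)).card with hc
  have hmap : ∀ t ∈ fib h13 (1 : H₁ ≃ₐ[K] H₁), res h23 t ∈ fib h02 (1 : H ≃ₐ[K] H) := by
    intro t ht
    rw [mem_fib] at ht ⊢
    rw [res_res, ← res_res h01 h13, ht, map_one]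
  have hcard : ∀ α ∈ fib h02 (1 : H ≃ₐ[K] H),
      ((fib h13 (1 : H₁ ≃ₐ[K] H₁)).filter (fun t => res h23 t = α)).card = c := by
    intro α hα
    rw [mem_fib] at hα
    obtain ⟨γ, hγ1, hγ2⟩ := exists_lift_pair h23 h13 h02 hinf α hα
    rw [hc]
    symm
    refine Finset.card_bij (fun t _ => γ * t) ?_ ?_ ?_
    · intro t ht
      rw [Finset.mem_filter, mem_fib] at ht ⊢
      rw [map_mul, map_mul, hγ1, hγ2, ht.1, ht.2, mul_one, mul_one]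
      exact ⟨rfl, rfl⟩
    · intro a _ b _ hab
      exact mul_left_cancel hab
    · intro b hb
      refine ⟨γ⁻¹ * b, ?_, by group⟩
      rw [Finset.mem_filter, mem_fib] at hb ⊢
      rw [map_mul, map_mul, map_inv, map_inv, hγ1, hγ2, hb.1, hb.2]
      simp
  refine ⟨c, ?_, ?_⟩
  · have e1 : (fib h13 (1 : H₁ ≃ₐ[K] H₁)).card = (fib h02 (1 : H ≃ₐ[K] H)).card * c := by
      rw [Finset.card_eq_sum_card_fiberwise hmap, Finset.sum_const_nat (m := c)]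
      exact hcard
    have e2 := card_fib_mul h01 h13
    have e3 := card_fib_mul h02 h23
    have e4 : 0 < (fib h02 (1 : H ≃ₐ[K] H)).card :=
      Finset.card_pos.2 ⟨1, by rw [mem_fib, map_one]⟩
    apply Nat.eq_of_mul_eq_mul_left e4
    rw [← e3, e2, e1]
    ring
  · intro κ _ f
    rw [← Finset.prod_fiberwise_of_maps_to hmap, ← Finset.prod_pow]
    refine Finset.prod_congr rfl fun α hα => ?_
    rw [← hcard α hα, ← Finset.prod_const]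
    refine Finset.prod_congr rfl fun t ht => ?_
    rw [(Finset.mem_filter.1 ht).2]

end fibres

variable {K : Type*} [Field K] [NumberField K] [Algebra K ℝ] {σ₂ : K →+* ℝ}

section units

variable {H L : IntermediateField K ℝ} {x y : ℝ}

lemma ksi_mul (hx : IsUn L x) (hy : IsUn L y) : IsUn L (x * y) :=
  ⟨hx.int.mul hy.int, by rw [mul_inv]; exact hx.inv.mul hy.inv, mul_ne_zero hx.ne hy.ne⟩

lemma ksi_inv (hx : IsUn L x) : IsUn L x⁻¹ :=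
  ⟨hx.inv, by rw [inv_inv]; exact hx.int, inv_ne_zero hx.ne⟩

lemma ksi_div (hx : IsUn L x) (hy : IsUn L y) : IsUn L (x / y) := by
  rw [div_eq_mul_inv]; exact ksi_mul hx (ksi_inv hy)

lemma ksi_pow (hx : IsUn L x) (k : ℕ) : IsUn L (x ^ k) :=
  ⟨hx.int.pow k, by rw [← inv_pow]; exact hx.inv.pow k, pow_ne_zero k hx.ne⟩

lemma ksi_act (hx : IsUn L x) (g : L ≃ₐ[K] L) : IsUn L (act g x) :=
  ⟨hx.int.act g, by rw [← act_inv g hx.int.1]; exact hx.inv.act g, act_ne_zero g hx.int.1 hx.ne⟩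

lemma ksi_mono (h : H ≤ L) (hx : IsUn H x) : IsUn L x := ⟨hx.int.mono h, hx.inv.mono h, hx.ne⟩

lemma ksi_rd_ne (P : PrI L) (hx : IsUn L x) : rd P x ≠ 0 := STc.rd_ne_zero hx.int hx.inv hx.ne

/-- congruences between units can be tested above -/
lemma ksi_up (h : H ≤ L) {P : PrI H} {Λ : PrI L} (hiff : ∀ x, IsInt H x → (rd Λ x = 0 ↔ rd P x = 0))
    (hx : IsInt H x) (hy : IsInt H y) (he : rd Λ x = rd Λ y) : rd P x = rd P y := by
  rw [STc.rd_eq_iff hx hy, ← hiff _ (hx.sub hy), ← STc.rd_eq_iff (hx.mono h) (hy.mono h)]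
  exact he

end units

/-- the element `z` -/
noncomputable def zz {H H₁ : IntermediateField K ℝ} [FiniteDimensional K H₁] [Normal K H]
    (hle : H ≤ H₁) (ℓ : PrI K) (φ : H ≃ₐ[K] H) (u u₁ : ℝ) : ℝ :=
  u₁ ^ ((fib hle (1 : H ≃ₐ[K] H)).card / 4) / (act φ⁻¹ u) ^ ((pn ℓ - 1) / 4)


theorem ks_inv (h2 : Module.finrank ℚ K = 2) (hσ : σ₂ ≠ sg1 K) {n : Ideal (𝓞 K)} (hn : n ≠ ⊥)
    (hn1 : n ≠ ⊤) {ℓ r : PrI K} (hℓ : ¬ ℓ.asIdeal ∣ n) (hr : ¬ r.asIdeal ∣ n) (hℓr : ℓ ≠ r)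
    {H H₁ H₂ H₃ : IntermediateField K ℝ} {Art : RayClassGroup σ₂ n ≃* (H ≃ₐ[K] H)}
    {Art₁ : RayClassGroup σ₂ (n * ℓ.asIdeal) ≃* (H₁ ≃ₐ[K] H₁)}
    {Art₂ : RayClassGroup σ₂ (n * r.asIdeal) ≃* (H₂ ≃ₐ[K] H₂)}
    {Art₃ : RayClassGroup σ₂ (n * ℓ.asIdeal * r.asIdeal) ≃* (H₃ ≃ₐ[K] H₃)}
    {u u₁ u₂ u₃ : ℝ} (d : SData σ₂ n H Art u) (d₁ : SData σ₂ (n * ℓ.asIdeal) H₁ Art₁ u₁)
    (d₂ : SData σ₂ (n * r.asIdeal) H₂ Art₂ u₂)
    (d₃ : SData σ₂ (n * ℓ.asIdeal * r.asIdeal) H₃ Art₃ u₃)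
    [FiniteDimensional K H₁] [Normal K H] (hle : H ≤ H₁)
    (h4 : 4 ∣ (fib hle (1 : H ≃ₐ[K] H)).card) {f : ℕ}
    (hf : Art (cls σ₂ n (prJ n ℓ hℓ)) ^ f = 1) (hℓ' : ¬ ℓ.asIdeal ∣ n * r.asIdeal)
    (ho : 4 ∣ orderOf (cls σ₂ (n * r.asIdeal) (prJ (n * r.asIdeal) ℓ hℓ') ^ f))
    (hr' : ¬ r.asIdeal ∣ n * ℓ.asIdeal) {P : PrI H₁} (hP : und K P = ℓ) (σ : H₁ ≃ₐ[K] H₁) :
    rd P (act (σ * (Art₁ (cls σ₂ _ (prJ (n * ℓ.asIdeal) r hr')))⁻¹)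
      (zz hle ℓ (Art (cls σ₂ n (prJ n ℓ hℓ))) u u₁)) =
    rd P (act σ (zz hle ℓ (Art (cls σ₂ n (prJ n ℓ hℓ))) u u₁)) := by
  classical
  have hne₁ : n * ℓ.asIdeal ≠ ⊥ := mul_ne_bot' hn ℓ.ne_bot
  have hne₂ : n * r.asIdeal ≠ ⊥ := mul_ne_bot' hn r.ne_bot
  have hne₃ : n * ℓ.asIdeal * r.asIdeal ≠ ⊥ := mul_ne_bot' hne₁ r.ne_bot
  have hl₁ : n * ℓ.asIdeal ≤ n := Ideal.mul_le_left
  have hl₂ : n * r.asIdeal ≤ n := Ideal.mul_le_left
  have hl₃₁ : n * ℓ.asIdeal * r.asIdeal ≤ n * ℓ.asIdeal := Ideal.mul_le_left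
  have hl₃₂ : n * ℓ.asIdeal * r.asIdeal ≤ n * r.asIdeal := by
    rw [mul_right_comm]; exact Ideal.mul_le_left
  have ht₁ : n * ℓ.asIdeal ≠ ⊤ := ne_top_of_le_ne_top hn1 hl₁
  have ht₂ : n * r.asIdeal ≠ ⊤ := ne_top_of_le_ne_top hn1 hl₂
  have i0 : IsAbelianGalois K H := d.rcf.isRCF.abelian
  have i1 : IsAbelianGalois K H₁ := d₁.rcf.isRCF.abelian
  have i2 : IsAbelianGalois K H₂ := d₂.rcf.isRCF.abelian
  have i3 : IsAbelianGalois K H₃ := d₃.rcf.isRCF.abelian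
  have j0 := d.rcf.finite
  have j2 := d₂.rcf.finite
  have j3 := d₃.rcf.finite
  have h02 : H ≤ H₂ := IsRCF.le hl₂ hne₂ Set.finite_empty Set.finite_empty d₂.rcf.isRCF
    d.rcf.isRCF
  have h13 : H₁ ≤ H₃ := IsRCF.le hl₃₁ hne₃ Set.finite_empty Set.finite_empty d₃.rcf.isRCF
    d₁.rcf.isRCF
  have h23 : H₂ ≤ H₃ := IsRCF.le hl₃₂ hne₃ Set.finite_empty Set.finite_empty d₃.rcf.isRCF
    d₂.rcf.isRCF
  have hinf : H₂ ⊓ H₁ ≤ H := by
    rw [inf_comm]; exact inf_le' hn hℓr hr rfl rfl d.rcf d₁.rcf d₂.rcf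
  have hex : ∃ Art' : RayClassGroup σ₂ (n * r.asIdeal * ℓ.asIdeal) ≃* (H₃ ≃ₐ[K] H₃),
      SData σ₂ (n * r.asIdeal * ℓ.asIdeal) H₃ Art' u₃ := by
    rw [mul_right_comm]; exact ⟨Art₃, d₃⟩
  obtain ⟨Art₃', d₃'⟩ := hex
  obtain ⟨Λ, hΛ, hiff, -⟩ := STc.exists_up h13 P
  have hΛℓ : und K Λ = ℓ := by rw [hΛ, hP]
  have := numberField_of_fd H₃
  obtain ⟨Φ, hΦ⟩ := exists_isFrob (K := K) Λ
  have hΦℓ : STc.FrobAt ℓ H₃ Φ := by rw [← hΛℓ]; exact STc.frobAt_of_isFrob hΦ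
  have hΦ2 : res h23 Φ = Art₂ (cls σ₂ (n * r.asIdeal) (prJ (n * r.asIdeal) ℓ hℓ')) := by
    obtain ⟨hu, hF⟩ := STc.frobAt_rcf d₂.rcf hℓ'
    exact (hΦℓ.res h23).unique hu hF
  have hΦ0 : res (hle.trans h13) Φ = Art (cls σ₂ n (prJ n ℓ hℓ)) := by
    obtain ⟨hu, hF⟩ := STc.frobAt_rcf d.rcf hℓ
    exact (hΦℓ.res (hle.trans h13)).unique hu hF
  have U0 : IsUn H u := d.pre.isUn
  have U1 : IsUn H₁ u₁ := d₁.pre.isUn
  have U2 : IsUn H₂ u₂ := d₂.pre.isUn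
  have U3 : IsUn H₃ u₃ := d₃.pre.isUn
  have U2' : IsUn H₃ u₂ := ksi_mono h23 U2
  have U2Φ : IsUn H₃ (act Φ⁻¹ u₂) := ksi_act U2' _
  have := Λ.isMaximal
  let _ : Field (𝓞 H₃ ⧸ Λ.asIdeal) := Ideal.Quotient.field Λ.asIdeal
  let _ : CommGroup (H₃ ≃ₐ[K] H₃) :=
    { (inferInstance : Group (H₃ ≃ₐ[K] H₃)) with mul_comm := mul_comm' }
  obtain ⟨c, hc1, hc2⟩ := ksi_prod_res hle h02 h13 h23 hinf
  set e := (fib hle (1 : H ≃ₐ[K] H)).card with he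
  set e' := (fib h23 (1 : H₂ ≃ₐ[K] H₂)).card with he'
  have he0 : 0 < e := Finset.card_pos.2 ⟨1, by rw [mem_fib, map_one]⟩
  have he0' : 0 < e' := Finset.card_pos.2 ⟨1, by rw [mem_fib, map_one]⟩
  set A : (H₃ ≃ₐ[K] H₃) → 𝓞 H₃ ⧸ Λ.asIdeal := fun g => rd Λ (act g u₃) with hAdef
  set B : (H₃ ≃ₐ[K] H₃) → 𝓞 H₃ ⧸ Λ.asIdeal := fun g => rd Λ (act g (act Φ⁻¹ u₂)) with hBdef
  have hA : ∀ g, A g ≠ 0 := fun g => ksi_rd_ne Λ (ksi_act U3 g)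
  have hB : ∀ g, B g ≠ 0 := fun g => ksi_rd_ne Λ (ksi_act U2Φ g)
  have hAΓ : ∀ g, ∀ γ ∈ (res h23).ker, A (g * γ) = A g := by
    intro g γ hγ
    simp only [hAdef]
    rw [mul_comm' g γ, act_comp _ _ U3.int.1]
    exact rd_act_of_res_one hne₂ hℓ' d₂.rcf d₃'.rcf h23 hγ hΛℓ (U3.int.act g)
  have hBΓ : ∀ g, ∀ γ ∈ (res h23).ker, B (g * γ) = B g := by
    intro g γ hγ
    simp only [hBdef]
    have e1 : act Φ⁻¹ u₂ ∈ H₂ := by
      rw [← act_res h23 Φ⁻¹ U2.int.1]; exact act_mem _ U2.int.1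
    rw [act_comp _ _ U2Φ.int.1, (res_eq_one_iff h23 γ).1 hγ _ e1]
  have hAΦ : ∀ g, A (g * Φ) = A g ^ pn ℓ := by
    intro g
    simp only [hAdef]
    rw [mul_comm' g Φ, act_comp _ _ U3.int.1, STc.rd_frob hΦ (U3.int.act g), hΛℓ]
  have hBΦ : ∀ g, B (g * Φ) = B g ^ pn ℓ := by
    intro g
    simp only [hBdef]
    rw [mul_comm' g Φ, act_comp _ _ U2Φ.int.1, STc.rd_frob hΦ (U2Φ.int.act g), hΛℓ]
  -- e' divides N ℓ - 1
  have hcard23 : Nat.card (res h23).ker = e' := ksi_card_ker h23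
  have hcard01 : Nat.card (res hle).ker = e := ksi_card_ker hle
  have hdvd : e' ∣ pn ℓ - 1 := by
    obtain ⟨γ₀, g, g1, g2, g3, -⟩ := exists_cyc' hne₂ hℓ' d₂.rcf d₃'.rcf h23
    have hker : (res h23).ker = Subgroup.zpowers γ₀ := by
      ext γ; rw [MonoidHom.mem_ker]; exact g1 γ
    rw [← hcard23, hker, Nat.card_zpowers, orderOf_dvd_iff_pow_eq_one]
    have := ℓ.isMaximal
    let _ : Field (𝓞 K ⧸ ℓ.asIdeal) := Ideal.Quotient.field ℓ.asIdeal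
    have hg0 : g ≠ 0 := by
      rintro rfl
      obtain ⟨w, -, hw⟩ := (g3 (orderOf γ₀)).1 (pow_orderOf_eq_one γ₀)
      rw [zero_pow (orderOf_pos γ₀).ne'] at hw
      have h5 := w.isUnit.map (Ideal.Quotient.mk ℓ.asIdeal)
      exact h5.ne_zero hw.symm
    refine (g3 (pn ℓ - 1)).2 ⟨1, ⟨by simp, by simp⟩, ?_⟩
    obtain ⟨a, rfl⟩ := Ideal.Quotient.mk_surjective g
    have ha : a ∉ ℓ.asIdeal := fun h => hg0 (Ideal.Quotient.eq_zero_iff_mem.2 h)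
    have h6 := pow_pn_sub_one_mem ha
    rw [← map_pow, Units.val_one]
    exact Ideal.Quotient.eq.2 h6
  have hp : 0 < pn ℓ := by
    have h5 := two_le_pn ℓ
    omega
  have hAB : ∀ g, A g ^ e' = B g ^ (pn ℓ - 1) := by
    intro g
    have n2 := norm_prime_rel h2 hσ hne₂ ht₂ hℓ' rfl d₂ d₃' h23
    rw [← hΦ2, ← map_inv, act_res h23 _ U2.int.1] at n2
    have e1 : fibProd h23 u₃ 1 * act Φ⁻¹ u₂ = u₂ := by
      rw [n2, div_mul_cancel₀ _ U2Φ.ne]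
    have e0 : IsInt H₃ (fibProd h23 u₃ 1) := STc.IsInt.prod fun γ _ => U3.int.act γ
    have e2 : rd Λ (act g (fibProd h23 u₃ 1)) = A g ^ e' := by
      unfold fibProd
      rw [act_prod g _ _ (fun γ _ => act_mem γ U3.int.1),
        STc.rd_prod fun γ _ => (U3.int.act γ).act g, he', ← Finset.prod_const]
      refine Finset.prod_congr rfl fun γ hγ => ?_
      rw [← act_comp _ _ U3.int.1]
      exact hAΓ g γ (by rw [MonoidHom.mem_ker]; exact (mem_fib h23).1 hγ)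
    have e3 : rd Λ (act g u₂) = B g ^ pn ℓ := by
      have h5 := hBΦ g
      simp only [hBdef] at h5 ⊢
      rw [← h5, act_comp _ _ U2Φ.int.1, act_act_inv _ U2'.int.1]
    have e4 : rd Λ (act g u₂) = A g ^ e' * B g := by
      rw [← e2]
      simp only [hBdef]
      rw [← STc.rd_mul (e0.act g) (U2Φ.int.act g), ← act_mul g e0.1 U2Φ.int.1, e1]
    apply mul_right_cancel₀ (hB g)
    rw [← e4, e3, ← pow_succ]
    congr 1
    omega
  have hcard : e' ∣ Nat.card (((res h23).ker ⊔ Subgroup.zpowers (Φ ^ f)) ⊓ (res h13).ker :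
      Subgroup (H₃ ≃ₐ[K] H₃)) * (e / 4) := by
    refine ksb (res h13) (res h23) (res hle).ker Φ f e e' h4 hcard01 hcard23 ?_ ?_ ?_
    · intro γ hγ
      rw [MonoidHom.mem_ker] at hγ ⊢
      rw [res_res, ← res_res h02 h23, hγ, map_one]
    · rw [MonoidHom.mem_ker, res_res, map_pow, hΦ0, hf]
    · rw [map_pow, hΦ2, ← map_pow, MulEquiv.orderOf_eq]
      exact ho
  have hT : ∀ g, g ∈ fib h13 (1 : H₁ ≃ₐ[K] H₁) ↔ g ∈ (res h13).ker := by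
    intro g; rw [mem_fib, MonoidHom.mem_ker]
  obtain ⟨g, hg⟩ := res_surjective h13 σ
  have hI02 : IsInt H₂ (fibProd h02 u₂ 1) := STc.IsInt.prod fun γ _ => U2.int.act γ
  have hb : ∏ t ∈ fib h13 (1 : H₁ ≃ₐ[K] H₁), B (g * t) =
      (rd Λ (act g (act Φ⁻¹ (fibProd h02 u₂ 1)))) ^ (e' / e) := by
    have h5 := hc2 (𝓞 H₃ ⧸ Λ.asIdeal) (fun α => rd Λ (act g (act Φ⁻¹ (act α u₂))))
    have h6 : e' / e = c := by rw [← hc1]; exact Nat.mul_div_cancel_left c he0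
    rw [h6]
    have h7 : ∏ t ∈ fib h13 (1 : H₁ ≃ₐ[K] H₁), B (g * t) =
        ∏ t ∈ fib h13 (1 : H₁ ≃ₐ[K] H₁), rd Λ (act g (act Φ⁻¹ (act (res h23 t) u₂))) := by
      refine Finset.prod_congr rfl fun t _ => ?_
      simp only [hBdef]
      rw [act_res h23 t U2.int.1, act_comp _ _ U2Φ.int.1, ← act_comp _ _ U2'.int.1,
        ← act_comp _ _ U2'.int.1, mul_comm' t, act_comp g _ U2'.int.1, act_comp Φ⁻¹ _ U2'.int.1]
    rw [h7, h5]
    congr 1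
    unfold fibProd
    rw [act_prod _ _ _ (fun γ _ => h23 (act_mem γ U2.int.1)),
      act_prod _ _ _ (fun γ _ => act_mem _ (h23 (act_mem γ U2.int.1))),
      STc.rd_prod fun γ _ => (((U2.int.act γ).mono h23).act _).act _]
  have key := ksa A B hA hB (res h23).ker (res h13).ker Φ f (pn ℓ) e e' h4 ⟨c, hc1.symm⟩ hdvd he0'
    hp hAΓ hBΓ hAΦ hBΦ hAB hcard (fib h13 (1 : H₁ ≃ₐ[K] H₁)) hT g hb
  -- translation
  set F₁ := Art₁ (cls σ₂ _ (prJ (n * ℓ.asIdeal) r hr')) with hF₁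
  set φ := Art (cls σ₂ n (prJ n ℓ hℓ)) with hφ
  have hF₀ : res hle F₁ = Art (cls σ₂ n (prJ n r hr)) := by
    rw [hF₁, IsRCF.res_art hl₁ hne₁ Set.finite_empty Set.finite_empty d₁.rcf.isRCF d.rcf.isRCF]
    rfl
  have n1 := norm_prime_rel h2 hσ hne₁ ht₁ hr' rfl d₁ d₃ h13
  rw [← hF₁] at n1
  have n0 := norm_prime_rel h2 hσ hn hn1 hr rfl d d₂ h02
  rw [← hF₀, ← map_inv, act_res hle _ U0.int.1] at n0
  have U0' : IsUn H₁ u := ksi_mono hle U0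
  have U1F : IsUn H₁ (act F₁⁻¹ u₁) := ksi_act U1 _
  have U0F : IsUn H₁ (act F₁⁻¹ u) := ksi_act U0' _
  have Uφ : IsUn H (act φ⁻¹ u) := ksi_act U0 _
  have Uφ' : IsUn H₁ (act φ⁻¹ u) := ksi_mono hle Uφ
  set W := u₁ / act F₁⁻¹ u₁ with hW
  set v := act φ⁻¹ u with hv
  set V := v / act F₁⁻¹ v with hV
  have UW : IsUn H₁ W := ksi_div U1 U1F
  have UV : IsUn H₁ V := ksi_div Uφ' (ksi_act Uφ' _)
  have k1 : ∏ t ∈ fib h13 (1 : H₁ ≃ₐ[K] H₁), A (g * t) = rd Λ (act σ W) := by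
    rw [← n1, ← hg, act_res h13 g (by rw [n1]; exact UW.int.1)]
    unfold fibProd
    rw [act_prod _ _ _ (fun γ _ => act_mem γ U3.int.1),
      STc.rd_prod fun γ _ => (U3.int.act γ).act g]
    refine Finset.prod_congr rfl fun t _ => ?_
    simp only [hAdef]
    rw [act_comp _ _ U3.int.1]
  have k2 : rd Λ (act g (act Φ⁻¹ (fibProd h02 u₂ 1))) = rd Λ (act σ V) := by
    have e1 : act Φ⁻¹ (fibProd h02 u₂ 1) = V := by
      rw [n0, act_div _ (h13 U0'.int.1) (h13 U0F.int.1), hV]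
      have e2 : act Φ⁻¹ u = v := by
        rw [hv, ← hΦ0, ← map_inv, act_res (hle.trans h13) _ U0.int.1]
      have e3 : act Φ⁻¹ (act F₁⁻¹ u) = act F₁⁻¹ v := by
        have e4 : act F₁⁻¹ u ∈ H := by
          rw [← act_res hle _ U0.int.1]; exact act_mem _ U0.int.1
        rw [← act_res (hle.trans h13) _ e4, map_inv, hΦ0, hv,
          ← act_res hle F₁⁻¹ Uφ.int.1, ← act_res hle F₁⁻¹ U0.int.1,
          ← act_comp _ _ U0.int.1, ← act_comp _ _ U0.int.1, mul_comm' φ⁻¹]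
      rw [e2, e3]
    rw [e1, ← hg, act_res h13 g UV.int.1]
  rw [k1, k2, ← STc.rd_pow ((UW.int.act σ).mono h13), ← STc.rd_pow ((UV.int.act σ).mono h13),
    ← act_pow σ UW.int.1, ← act_pow σ UV.int.1] at key
  have key2 := ksi_up h13 hiff ((UW.int.pow _).act σ) ((UV.int.pow _).act σ) key
  set k := (pn ℓ - 1) / 4 with hk
  have Uz : IsUn H₁ (u₁ ^ (e / 4) / v ^ k) := ksi_div (ksi_pow U1 _) (ksi_pow Uφ' _)
  have hz : zz hle ℓ φ u u₁ = u₁ ^ (e / 4) / v ^ k := rfl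
  rw [hz]
  set z := u₁ ^ (e / 4) / v ^ k with hzdef
  have hz1 : z = act F₁⁻¹ z * (W ^ (e / 4) * (V ^ k)⁻¹) := by
    rw [hzdef, act_div _ (pow_mem U1.int.1 _) (pow_mem Uφ'.int.1 _), act_pow _ U1.int.1,
      act_pow _ Uφ'.int.1, hW, hV, div_pow, div_pow]
    have a1 := U1F.ne
    have a2 := (ksi_act Uφ' F₁⁻¹).ne
    have a3 := Uφ'.ne
    field_simp
  have UVk : IsUn H₁ (V ^ k) := ksi_pow UV _
  have UWe : IsUn H₁ (W ^ (e / 4)) := ksi_pow UW _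
  have hone : rd P (act σ (W ^ (e / 4) * (V ^ k)⁻¹)) = 1 := by
    rw [act_mul _ UWe.int.1 UVk.inv.1, STc.rd_mul (UWe.int.act σ) (UVk.inv.act σ), key2,
      ← STc.rd_mul (UVk.int.act σ) (UVk.inv.act σ), ← act_mul _ UVk.int.1 UVk.inv.1,
      mul_inv_cancel₀ UVk.ne, act_one_right, STc.rd_one]
  have Uzz : IsUn H₁ (act F₁⁻¹ z) := ksi_act Uz _
  rw [act_comp _ _ Uz.int.1]
  conv_rhs => rw [hz1, act_mul _ Uzz.int.1 (ksi_mul UWe (ksi_inv UVk)).int.1,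
    STc.rd_mul (Uzz.int.act σ) ((ksi_mul UWe (ksi_inv UVk)).int.act σ), hone, mul_one]

end Pool.Agent.STe
end

section

/-!
# The Kolyvagin sign
-/

set_option linter.unusedSectionVars false

open NumberField IsDedekindDomain nonZeroDivisors IntermediateField

namespace Pool.Agent.STe

open Pool.Agent.ST Pool.Agent.STb Pool.Agent.STd
open Pool.Agent.STc (IsInt rd IsUn rd_mul rd_pow rd_one rd_prod rd_eq_iff rd_ne_zero)

variable {K : Type*} [Field K] [NumberField K] [Algebra K ℝ] {σ₂ : K →+* ℝ}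

section card

variable {m : Ideal (𝓞 K)} {q : PrI K} {H H' : IntermediateField K ℝ}
  {Art : RayClassGroup σ₂ m ≃* (H ≃ₐ[K] H)}
  {Art' : RayClassGroup σ₂ (m * q.asIdeal) ≃* (H' ≃ₐ[K] H')}

lemma card_fib_eq (hle : H ≤ H') [Normal K H] [FiniteDimensional K H'] :
    (fib hle (1 : H ≃ₐ[K] H)).card = Nat.card (res hle).ker := by
  rw [← Nat.card_eq_finsetCard]
  refine Nat.card_congr (Equiv.subtypeEquivRight fun γ => ?_)
  rw [mem_fib, MonoidHom.mem_ker]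

/-- the degree divides `N q - 1` -/
lemma card_fib_dvd (hm : m ≠ ⊥) (hq : ¬ q.asIdeal ∣ m) (h : IsRayClassField σ₂ m H Art)
    (h' : IsRayClassField σ₂ (m * q.asIdeal) H' Art') (hle : H ≤ H') [Normal K H]
    [FiniteDimensional K H'] : (fib hle (1 : H ≃ₐ[K] H)).card ∣ pn q - 1 := by
  obtain ⟨γ₀, g, h1, -, h3⟩ := exists_cyc hm hq h h' hle
  have h4 : (res hle).ker = Subgroup.zpowers γ₀ := by
    ext γ
    rw [MonoidHom.mem_ker]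
    exact h1 γ
  rw [card_fib_eq, h4, Nat.card_zpowers]
  have hg : g ≠ 0 := by
    rintro rfl
    have h5 : 0 < orderOf γ₀ := orderOf_pos γ₀
    obtain ⟨w, -, hw⟩ := (h3 (orderOf γ₀)).1 (pow_orderOf_eq_one γ₀)
    rw [zero_pow h5.ne'] at hw
    have h6 := (w.isUnit.map (Ideal.Quotient.mk q.asIdeal))
    have := q.isPrime
    exact h6.ne_zero hw.symm
  obtain ⟨a, rfl⟩ := Ideal.Quotient.mk_surjective g
  apply orderOf_dvd_of_pow_eq_one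
  rw [h3]
  refine ⟨1, EU.one, ?_⟩
  rw [← map_pow, Ideal.Quotient.eq, Units.val_one]
  apply pow_pn_sub_one_mem
  intro ha
  exact hg (Ideal.Quotient.eq_zero_iff_mem.2 ha)

end card

/-- **The Kolyvagin sign is trivial.** -/
theorem ks (h2 : Module.finrank ℚ K = 2) (hσ : σ₂ ≠ sg1 K) {n : Ideal (𝓞 K)} (hn : n ≠ ⊥)
    (hn1 : n ≠ ⊤) (hS : ∀ n' : Ideal (𝓞 K), n' ≠ ⊥ → n' ≤ n → ∃ (H : IntermediateField K ℝ)
      (Art : RayClassGroup σ₂ n' ≃* (H ≃ₐ[K] H)) (u : ℝ), SData σ₂ n' H Art u)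
    {ε₀ : (𝓞 K)ˣ} (hε₀ : ∀ w : (𝓞 K)ˣ, ∃ k : ℤ, w = ε₀ ^ k ∨ w = -ε₀ ^ k)
    (hε1 : 0 < algebraMap K ℝ ((ε₀ : 𝓞 K) : K)) (hε2 : 0 < σ₂ ((ε₀ : 𝓞 K) : K))
    (hε3 : ¬ IsSquare ε₀) {ℓ : PrI K} (hℓ : ¬ ℓ.asIdeal ∣ n)
    {H H₁ : IntermediateField K ℝ} {Art : RayClassGroup σ₂ n ≃* (H ≃ₐ[K] H)}
    {Art₁ : RayClassGroup σ₂ (n * ℓ.asIdeal) ≃* (H₁ ≃ₐ[K] H₁)}
    {u u₁ : ℝ} (d : SData σ₂ n H Art u) (d₁ : SData σ₂ (n * ℓ.asIdeal) H₁ Art₁ u₁)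
    [FiniteDimensional K H₁] [Normal K H] (hle : H ≤ H₁)
    (h4 : 4 ∣ (fib hle (1 : H ≃ₐ[K] H)).card) {P : PrI H₁} (hP : und K P = ℓ)
    (σ : H₁ ≃ₐ[K] H₁) :
    rd P (act σ u₁) ^ ((fib hle (1 : H ≃ₐ[K] H)).card / 2) =
      rd P (act σ (act (Art (cls σ₂ n (prJ n ℓ hℓ)))⁻¹ u)) ^ ((pn ℓ - 1) / 2) := by
  have hfdH := d.rcf.finite
  have habH : IsAbelianGalois K H := d.rcf.isRCF.abelian
  have hab₁ : IsAbelianGalois K H₁ := d₁.rcf.isRCF.abelian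
  have hne₁ : n * ℓ.asIdeal ≠ ⊥ := mul_ne_bot' hn ℓ.ne_bot
  have hle₁ : n * ℓ.asIdeal ≤ n := Ideal.mul_le_left
  set φ := Art (cls σ₂ n (prJ n ℓ hℓ)) with hφ
  set e := (fib hle (1 : H ≃ₐ[K] H)).card with he
  obtain ⟨f, β, hf0, hβ, hβ1, hβ2⟩ := exists_beta' hn hℓ d.rcf
  have hcls : cls σ₂ n (prJ n ℓ hℓ) ^ f = 1 := by
    rw [← map_pow, cls_eq_one_iff]
    refine ⟨(β : K), oneMod_of_sub_one_mem hβ1, hβ2, ?_⟩
    rw [Subgroup.coe_pow, Units.val_pow_eq_pow_val, coe_prJ, ← FractionalIdeal.coeIdeal_pow, ← hβ,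
      coe_span_singleton]
  have hφf : φ ^ f = 1 := by rw [hφ, ← map_pow, hcls, map_one]
  obtain ⟨N, hN⟩ : ∃ N : ℕ, ¬ 2 ^ N ∣ 2 * (2 * f) := by
    refine ⟨2 * (2 * f), fun h => ?_⟩
    have h5 := Nat.le_of_dvd (by omega) h
    have h6 : 2 * (2 * f) < 2 ^ (2 * (2 * f)) := Nat.lt_two_pow_self
    omega
  -- the element `z`
  set z := zz hle ℓ φ u u₁ with hz
  have hu₁ := d₁.pre.isUn
  have hu := d.pre.isUn
  have hφu : IsUn H (act φ⁻¹ u) := ⟨hu.int.act _, by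
    rw [← act_inv _ hu.int.1]; exact hu.inv.act _, act_ne_zero _ hu.int.1 hu.ne⟩
  have hz_mem : z ∈ H₁ := H₁.div_mem (pow_mem hu₁.int.1 _) (pow_mem (hle hφu.int.1) _)
  have hz0 : z ≠ 0 := div_ne_zero (pow_ne_zero _ hu₁.ne) (pow_ne_zero _ hφu.ne)
  have hzint : IsInt H₁ z := by
    have : z = u₁ ^ (e / 4) * ((act φ⁻¹ u)⁻¹) ^ ((pn ℓ - 1) / 4) := by
      rw [hz]; unfold zz; rw [inv_pow, div_eq_mul_inv]
    rw [this]
    exact (hu₁.int.pow _).mul ((hφu.inv.mono hle).pow _)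
  have hzinv : IsInt H₁ z⁻¹ := by
    have : z⁻¹ = (u₁⁻¹) ^ (e / 4) * (act φ⁻¹ u) ^ ((pn ℓ - 1) / 4) := by
      rw [hz]; unfold zz; rw [inv_div, inv_pow, div_eq_mul_inv, mul_comm]
    rw [this]
    exact (hu₁.inv.pow _).mul ((hφu.int.mono hle).pow _)
  -- the group of invariance
  let R : Subgroup (H₁ ≃ₐ[K] H₁) :=
    { carrier := {ρ | ∀ s : H₁ ≃ₐ[K] H₁, rd P (act (s * ρ) z) = rd P (act s z)}
      mul_mem' := by
        intro a b ha hb s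
        rw [← mul_assoc, hb, ha]
      one_mem' := by
        intro s
        rw [mul_one]
      inv_mem' := by
        intro a ha s
        have h5 := ha (s * a⁻¹)
        rw [inv_mul_cancel_right] at h5
        exact h5.symm }
  have hRin : ∀ γ : H₁ ≃ₐ[K] H₁, res hle γ = 1 → γ ∈ R := by
    intro γ hγ s
    rw [act_comp s γ hz_mem, act_act_comm s γ hz_mem]
    exact rd_act_of_res_one hn hℓ d.rcf d₁.rcf hle hγ hP (hzint.act s)
  have hRfrob : ∀ (r : PrI K) (hr : GoodR n β N r), ∃ ρ ∈ R,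
      res hle ρ = Art (cls σ₂ n (prJ n r hr.ndvd)) := by
    intro r hr
    have hrℓ : ℓ ≠ r := by
      rintro rfl
      apply hr.beta
      refine ⟨0, ?_⟩
      rw [zero_pow (by positivity)]
      symm
      rw [Ideal.Quotient.eq_zero_iff_mem]
      have h5 : β ∈ ℓ.asIdeal := by
        have h6 : Ideal.span {β} ≤ ℓ.asIdeal := by
          rw [hβ]; exact Ideal.pow_le_self hf0
        exact h6 (Ideal.mem_span_singleton_self β)
      exact Ideal.pow_mem_of_mem _ h5 2 (by norm_num)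
    have hr' : ¬ r.asIdeal ∣ n * ℓ.asIdeal := not_dvd_mul_prime hr.ndvd hrℓ.symm
    have hℓ' : ¬ ℓ.asIdeal ∣ n * r.asIdeal := not_dvd_mul_prime hℓ hrℓ
    obtain ⟨H₂, Art₂, u₂, d₂⟩ := hS (n * r.asIdeal) (mul_ne_bot' hn r.ne_bot) Ideal.mul_le_left
    obtain ⟨H₃, Art₃, u₃, d₃⟩ := hS (n * ℓ.asIdeal * r.asIdeal) (mul_ne_bot' hne₁ r.ne_bot)
      (Ideal.mul_le_left.trans hle₁)
    refine ⟨Art₁ (cls σ₂ _ (prJ (n * ℓ.asIdeal) r hr')), ?_, ?_⟩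
    · have h5 : (Art₁ (cls σ₂ _ (prJ (n * ℓ.asIdeal) r hr')))⁻¹ ∈ R := fun s =>
        ks_inv h2 hσ hn hn1 hℓ hr.ndvd hrℓ d d₁ d₂ d₃ hle h4 hφf hℓ'
          (four_dvd_order hn hℓ' hβ hβ1 hβ2 hr) hr' hP s
      have h6 := R.inv_mem h5
      rwa [inv_inv] at h6
    · rw [IsRCF.res_art hle₁ hne₁ Set.finite_empty Set.finite_empty d₁.rcf.isRCF d.rcf.isRCF]
      rfl
  -- complex conjugation
  obtain ⟨C, hC⟩ := exists_isConj σ₂ (L := H₁)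
  have hCR : C ∈ R := by
    refine mem_of_fix R fun x hx => ?_
    have hxH₁ : x ∈ H₁ := IntermediateField.lift_le _ hx
    have hfixR : ∀ ρ ∈ R, act ρ x = x := (mem_lift_fixedField R hxH₁).1 hx
    have hxH : x ∈ H := by
      apply mem_of_fixed hle hxH₁
      intro γ hγ
      exact hfixR γ (hRin γ ((res_eq_one_iff hle γ).2 hγ))
    have hxM : (x : ℂ) ∈ MN ((ε₀ : 𝓞 K) : K) N := by
      refine mem_MN_of_fix hn d.rcf hβ hN hε₀ hxH fun r hr => ?_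
      obtain ⟨ρ, hρ, hρ'⟩ := hRfrob r hr
      rw [← hρ', act_res hle ρ hxH]
      exact hfixR ρ hρ
    obtain ⟨g, hg⟩ := exists_over (H := H₁) σ₂
    exact act_conj_of_mem_MN hε1 hε2 (fun h => hε3 (unit_isSquare h)) hg (hC g hg) hxH₁ hxM
  have hCz : act C z = z⁻¹ := by
    have e1 : act C u₁ = u₁⁻¹ := d₁.pre.conj hC
    have e2 : act C (act φ⁻¹ u) = (act φ⁻¹ u)⁻¹ := by
      rw [← act_res hle C hφu.int.1, act_act_comm _ _ d.pre.mem, d.pre.conj (hC.res hle),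
        act_inv _ d.pre.mem]
    rw [hz]
    unfold zz
    rw [act_div C (pow_mem hu₁.int.1 _) (pow_mem (hle hφu.int.1) _), act_pow C hu₁.int.1,
      act_pow C (hle hφu.int.1), e1, e2, inv_pow, inv_pow, inv_div, div_inv_eq_mul, div_eq_mul_inv,
      mul_comm]
  have key : rd P (act σ z) ^ 2 = 1 := by
    have h5 := hCR σ
    rw [act_comp σ C hz_mem, hCz, act_inv σ hz_mem] at h5
    have h6 : rd P (act σ z) * rd P (act σ z)⁻¹ = 1 := by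
      rw [← rd_mul (hzint.act σ) (by rw [← act_inv σ hz_mem]; exact hzinv.act σ),
        mul_inv_cancel₀ (act_ne_zero σ hz_mem hz0), rd_one]
    rw [h5, ← pow_two] at h6
    exact h6
  -- the conclusion
  have hdvd : e ∣ pn ℓ - 1 := card_fib_dvd hn hℓ d.rcf d₁.rcf hle
  have h4' : 4 ∣ pn ℓ - 1 := h4.trans hdvd
  have he2 : e / 4 * 2 = e / 2 := by omega
  have hp2 : (pn ℓ - 1) / 4 * 2 = (pn ℓ - 1) / 2 := by omega
  have hzz : z ^ 2 * (act φ⁻¹ u) ^ ((pn ℓ - 1) / 2) = u₁ ^ (e / 2) := by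
    rw [hz]
    unfold zz
    rw [div_pow, ← pow_mul, ← pow_mul, he2, hp2]
    exact div_mul_cancel₀ _ (pow_ne_zero _ hφu.ne)
  have h7 : act σ (z ^ 2 * (act φ⁻¹ u) ^ ((pn ℓ - 1) / 2)) =
      (act σ z) ^ 2 * (act σ (act φ⁻¹ u)) ^ ((pn ℓ - 1) / 2) := by
    rw [act_mul σ (pow_mem hz_mem _) (pow_mem (hle hφu.int.1) _), act_pow σ hz_mem,
      act_pow σ (hle hφu.int.1)]
  have h8 := congrArg (act σ) hzz
  rw [h7, act_pow σ hu₁.int.1] at h8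
  have h9 := congrArg (rd P) h8
  have hφu₁ : IsInt H₁ (act σ (act φ⁻¹ u)) := (hφu.int.mono hle).act σ
  rw [rd_mul ((hzint.act σ).pow 2) (hφu₁.pow _), rd_pow (hzint.act σ), rd_pow hφu₁,
    rd_pow (hu₁.int.act σ), key, one_mul] at h9
  exact h9.symm

end Pool.Agent.STe
end
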