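import Pool.Agent.Lib.MP_1ef7cf_nt_e.Mg.G001
import Pool.Agent.Lib.MP_1ef7cf_nt_e.Mg.G002
import Pool.Agent.Lib.MP_1ef7cf_nt_e.PAB
import Pool.Agent.Lib.MP_1ef7cf_nt_e.QPR
import Pool.Agent.Lib.MP_1ef7cf_nt_e.OMG
import Pool.Agent.Lib.MP_1ef7cf_nt.Final2
import Pool.Agent.Lib.MP_1ef7cf_nt_f.Mg.G002
import Pool.Agent.Lib.MP_1ef7cf_nt_c.TFull

section

/-!
# The relation between the square roots at two inert primes
-/

set_option linter.unusedSectionVars false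

open NumberField IsDedekindDomain nonZeroDivisors IntermediateField

namespace Pool.Agent.STe

open Pool.Agent.ST Pool.Agent.STb Pool.Agent.STd
open Pool.Agent.STc (IsInt rd IsUn)

variable {K : Type*} [Field K] [NumberField K] [Algebra K ℝ] {σ₂ : K →+* ℝ}

section units

variable {L : IntermediateField K ℝ}

lemma isUn_of_pre {u : ℝ} (h : PreStark σ₂ L u) : IsUn L u :=
  ⟨⟨h.mem, h.int⟩, ⟨inv_mem h.mem, h.int_inv⟩, h.pos'.ne'⟩

lemma isUn_sqrt {a : ℝ} (ha : IsIntegral ℤ a) (ha' : IsIntegral ℤ a⁻¹) (h0 : 0 < a)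
    (hm : Real.sqrt a ∈ L) : IsUn L (Real.sqrt a) := by
  have h1 : Real.sqrt a ≠ 0 := (Real.sqrt_pos.2 h0).ne'
  refine ⟨⟨hm, ?_⟩, ⟨inv_mem hm, ?_⟩, h1⟩
  · apply IsIntegral.of_pow (n := 2) (by norm_num)
    rw [Real.sq_sqrt h0.le]; exact ha
  · apply IsIntegral.of_pow (n := 2) (by norm_num)
    rw [inv_pow, Real.sq_sqrt h0.le]; exact ha'

lemma isUn_act {a : ℝ} (h : IsUn L a) (σ : L ≃ₐ[K] L) : IsUn L (act σ a) :=
  ⟨h.int.act σ, by rw [← act_inv σ h.int.1]; exact h.inv.act σ, act_ne_zero σ h.int.1 h.ne⟩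

lemma isUn_prod {ι : Type*} {s : Finset ι} {f : ι → ℝ} (h : ∀ i ∈ s, IsUn L (f i)) :
    IsUn L (∏ i ∈ s, f i) := by
  refine ⟨IsInt.prod fun i hi => (h i hi).int, ?_, Finset.prod_ne_zero_iff.2 fun i hi => (h i hi).ne⟩
  rw [← Finset.prod_inv_distrib]
  exact IsInt.prod fun i hi => (h i hi).inv

end units

/-- reduction of `w / F⁻¹ w` -/
lemma rd_ratio {L M : IntermediateField K ℝ} [FiniteDimensional K L] [IsAbelianGalois K L]
    [FiniteDimensional K M] [IsAbelianGalois K M] {Pl : PrI L}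
    (hun : Algebra.IsUnramifiedAt (𝓞 K) Pl.asIdeal) {F : L ≃ₐ[K] L} (hF : IsFrob K Pl F)
    {P : PrI M} (hP : und K P = und K Pl) (h2 : 2 ∣ pn (und K P) - 1) {w : ℝ} (hw : IsUn L w)
    (hx : w / act F⁻¹ w ∈ M) (hb : act F⁻¹ w ^ 2 ∈ M) :
    rd P (w / act F⁻¹ w) = rd P (act F⁻¹ w ^ 2) ^ ((pn (und K P) - 1) / 2) := by
  have hab : IsAbelianGalois K (L ⊔ M : IntermediateField K ℝ) := isAbelianGalois_sup
  have hLE : L ≤ L ⊔ M := le_sup_left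
  have hME : M ≤ L ⊔ M := le_sup_right
  have := numberField_of_fd L
  have := numberField_of_fd (L ⊔ M : IntermediateField K ℝ)
  obtain ⟨Λ, hΛ, hΛ', -⟩ := STc.exists_up hME P
  obtain ⟨Φ, hΦ⟩ := exists_isFrob (K := K) Λ
  have h1 : STc.FrobAt (und K Λ) (L ⊔ M : IntermediateField K ℝ) Φ := STc.frobAt_of_isFrob hΦ
  have h3 : IsFrob K Pl (res hLE Φ) := h1.res hLE Pl (by rw [hΛ, hP])
  have h4 : res hLE Φ = F := isFrob_unique h3 hF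
  set b := act F⁻¹ w with hbdef
  have hbU : IsUn L b := isUn_act hw _
  have h5 : act Φ b = w := by
    rw [← act_res hLE Φ hbU.int.1, h4, hbdef, act_act_inv F hw.int.1]
  have h6 : rd Λ w = rd Λ b ^ pn (und K Λ) := by
    rw [← STc.rd_frob hΦ (hbU.int.mono hLE), h5]
  have hxi : IsInt (L ⊔ M : IntermediateField K ℝ) (w / b) := by
    rw [div_eq_mul_inv]
    exact (hw.int.mul hbU.inv).mono hLE
  have hxM : IsInt M (w / b) := ⟨hx, hxi.2⟩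
  have hbM : IsInt M (b ^ 2) := ⟨hb, (hbU.int.pow 2).2⟩
  have hb0 : rd Λ b ≠ 0 := STc.rd_ne_zero (hbU.int.mono hLE) (hbU.inv.mono hLE) hbU.ne
  have hprime := Λ.isPrime
  have hdom : IsDomain (𝓞 (L ⊔ M : IntermediateField K ℝ) ⧸ Λ.asIdeal) :=
    (Ideal.Quotient.isDomain_iff_prime _).2 hprime
  have h7 : rd Λ (w / b) * rd Λ b = rd Λ b ^ pn (und K Λ) := by
    rw [← STc.rd_mul hxi (hbU.int.mono hLE), div_mul_cancel₀ w hbU.ne, h6]
  have h8 : rd Λ b ^ pn (und K Λ) = rd Λ b ^ (pn (und K Λ) - 1) * rd Λ b := by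
    rw [← pow_succ, Nat.sub_add_cancel (by have := two_le_pn (und K Λ); omega)]
  rw [h8] at h7
  have h9 := mul_right_cancel₀ hb0 h7
  have h10 : rd Λ (w / b) = rd Λ ((b ^ 2) ^ ((pn (und K P) - 1) / 2)) := by
    rw [h9, STc.rd_pow ((hbU.int.mono hLE).pow 2), STc.rd_pow (hbU.int.mono hLE), ← pow_mul,
      Nat.mul_div_cancel' h2, hΛ]
  rw [STc.rd_eq_iff hxi (((hbU.int.mono hLE).pow 2).pow _), hΛ' _ (hxM.sub (hbM.pow _)),
    ← STc.rd_eq_iff hxM (hbM.pow _)] at h10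
  rw [h10, STc.rd_pow hbM]

/-- the square of a conjugate of the square root of a norm -/
lemma act_sqrt_sq {H Hq L : IntermediateField K ℝ} [FiniteDimensional K Hq]
    [IsAbelianGalois K Hq] [Normal K H] (hHq : H ≤ Hq) (hHL : H ≤ L) {u : ℝ} (hu : u ∈ Hq)
    (hpos : 0 < fibProd hHq u (1 : H ≃ₐ[K] H))
    (hw : Real.sqrt (fibProd hHq u (1 : H ≃ₐ[K] H)) ∈ L) {F : L ≃ₐ[K] L} {φ : Hq ≃ₐ[K] Hq}
    (h : res hHL F = res hHq φ) : act F⁻¹ (Real.sqrt (fibProd hHq u (1 : H ≃ₐ[K] H))) ^ 2 =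
      ∏ δ ∈ fib hHq (1 : H ≃ₐ[K] H), act δ (act φ⁻¹ u) := by
  have h1 : fibProd hHq u (1 : H ≃ₐ[K] H) ∈ H := ST.fibProd_mem_base hHq hu 1
  rw [← act_pow F⁻¹ hw, Real.sq_sqrt hpos.le, ← act_res hHL F⁻¹ h1, map_inv, h, ← map_inv,
    act_res hHq φ⁻¹ h1]
  unfold fibProd
  rw [act_prod φ⁻¹ _ _ (fun γ _ => act_mem γ hu)]
  exact Finset.prod_congr rfl fun γ _ => act_act_comm _ _ hu

/-- a fundamental unit that is positive at both places -/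
lemma exists_eps (h2 : Module.finrank ℚ K = 2) {u₀ : (𝓞 K)ˣ}
    (hpos : 0 < algebraMap K ℝ ((u₀ : 𝓞 K) : K)) (hpos2 : 0 < σ₂ ((u₀ : 𝓞 K) : K))
    (hns : ¬ IsSquare u₀) : ∃ ε₀ : (𝓞 K)ˣ, (∀ w : (𝓞 K)ˣ, ∃ k : ℤ, w = ε₀ ^ k ∨ w = -ε₀ ^ k) ∧
      0 < algebraMap K ℝ ((ε₀ : 𝓞 K) : K) ∧ 0 < σ₂ ((ε₀ : 𝓞 K) : K) ∧ ¬ IsSquare ε₀ := by
  obtain ⟨ε, hε, -⟩ := exists_fund (K := K) h2
  have hneg : ∀ k : ℤ, (-1 : (𝓞 K)ˣ) ^ k = 1 ∨ (-1 : (𝓞 K)ˣ) ^ k = -1 := by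
    intro k
    have h3 : (-1 : (𝓞 K)ˣ) ^ (2 : ℤ) = 1 := by
      rw [zpow_ofNat]; norm_num
    obtain ⟨j, rfl | rfl⟩ := Int.even_or_odd' k
    · left; rw [zpow_mul, h3, one_zpow]
    · right; rw [zpow_add, zpow_mul, h3, one_zpow, one_mul, zpow_one]
  have hne : algebraMap K ℝ ((ε : 𝓞 K) : K) ≠ 0 := by
    have h3 : ((ε : 𝓞 K) : K) ≠ 0 := coe_ne_zero' ε.ne_zero
    exact (map_ne_zero _).2 h3
  obtain ⟨ε₀, h3, h4⟩ : ∃ ε₀ : (𝓞 K)ˣ, (∀ w : (𝓞 K)ˣ, ∃ k : ℤ, w = ε₀ ^ k ∨ w = -ε₀ ^ k) ∧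
      0 < algebraMap K ℝ ((ε₀ : 𝓞 K) : K) := by
    rcases lt_or_gt_of_ne hne with h | h
    · refine ⟨-ε, fun w => ?_, ?_⟩
      · obtain ⟨k, hk⟩ := hε w
        refine ⟨k, ?_⟩
        have h5 : (-ε) ^ k = (-1) ^ k * ε ^ k := by rw [← mul_zpow, neg_one_mul]
        rcases hneg k with h6 | h6 <;> rw [h5, h6]
        · rw [one_mul]; exact hk
        · rw [neg_one_mul, neg_neg]; exact hk.symm
      · rw [Units.val_neg]
        simp only [map_neg]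
        exact neg_pos.2 h
    · exact ⟨ε, hε, h⟩
  let f₁ : (𝓞 K)ˣ →* ℝˣ := Units.map ((algebraMap K ℝ).comp (algebraMap (𝓞 K) K) : 𝓞 K →* ℝ)
  let f₂ : (𝓞 K)ˣ →* ℝˣ := Units.map (σ₂.comp (algebraMap (𝓞 K) K) : 𝓞 K →* ℝ)
  have hf₁ : ∀ w : (𝓞 K)ˣ, ((f₁ w : ℝˣ) : ℝ) = algebraMap K ℝ ((w : 𝓞 K) : K) := fun w => rfl
  have hf₂ : ∀ w : (𝓞 K)ˣ, ((f₂ w : ℝˣ) : ℝ) = σ₂ ((w : 𝓞 K) : K) := fun w => rfl
  obtain ⟨k, hk⟩ := h3 u₀
  have hk' : u₀ = ε₀ ^ k := by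
    rcases hk with h | h
    · exact h
    · exfalso
      rw [h, Units.val_neg] at hpos
      simp only [map_neg] at hpos
      have h5 : 0 < algebraMap K ℝ (((ε₀ ^ k : (𝓞 K)ˣ) : 𝓞 K) : K) := by
        rw [← hf₁, map_zpow, Units.val_zpow_eq_zpow_val, hf₁]
        exact zpow_pos h4 k
      linarith
  have hodd : Odd k := by
    rw [← Int.not_even_iff_odd]
    rintro ⟨j, hj⟩
    exact hns ⟨ε₀ ^ j, by rw [hk', hj, zpow_add]⟩
  refine ⟨ε₀, h3, h4, ?_, ?_⟩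
  · rw [hk', ← hf₂, map_zpow, Units.val_zpow_eq_zpow_val, hf₂] at hpos2
    exact hodd.zpow_pos_iff.1 hpos2
  · rintro ⟨x, hx⟩
    exact hns ⟨x ^ k, by rw [hk', hx, mul_zpow]⟩

/-- one side of the relation -/
lemma side (h2 : Module.finrank ℚ K = 2) (hσ : σ₂ ≠ sg1 K) {m : Ideal (𝓞 K)} (hm : m ≠ ⊥)
    (hm1 : m ≠ ⊤) {q ℓ : PrI K} (hlm : ¬ ℓ.asIdeal ∣ m) (hlq : ¬ ℓ.asIdeal ∣ m * q.asIdeal)
    (hS : ∀ n' : Ideal (𝓞 K), n' ≠ ⊥ → n' ≤ m * q.asIdeal → ∃ (H : IntermediateField K ℝ)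
      (Art : RayClassGroup σ₂ n' ≃* (H ≃ₐ[K] H)) (u : ℝ), SData σ₂ n' H Art u)
    {ε₀ : (𝓞 K)ˣ} (hε₀ : ∀ w : (𝓞 K)ˣ, ∃ k : ℤ, w = ε₀ ^ k ∨ w = -ε₀ ^ k)
    (hε1 : 0 < algebraMap K ℝ ((ε₀ : 𝓞 K) : K)) (hε2 : 0 < σ₂ ((ε₀ : 𝓞 K) : K))
    (hε3 : ¬ IsSquare ε₀)
    {H Hq M L : IntermediateField K ℝ} {Art : RayClassGroup σ₂ m ≃* (H ≃ₐ[K] H)}
    {Artq : RayClassGroup σ₂ (m * q.asIdeal) ≃* (Hq ≃ₐ[K] Hq)} {n' : Ideal (𝓞 K)}
    (hn' : n' = m * q.asIdeal * ℓ.asIdeal) {ArtM : RayClassGroup σ₂ n' ≃* (M ≃ₐ[K] M)} {uq U : ℝ}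
    (hr : IsRayClassField σ₂ m H Art) (dq : SData σ₂ (m * q.asIdeal) Hq Artq uq)
    (dM : SData σ₂ n' M ArtM U) [FiniteDimensional K Hq] [IsAbelianGalois K Hq] [Normal K H]
    [FiniteDimensional K M] [IsAbelianGalois K M] [FiniteDimensional K L] [IsAbelianGalois K L]
    (hHq : H ≤ Hq) (hqM : Hq ≤ M) (hHL : H ≤ L) (h4 : 4 ∣ (fib hqM (1 : Hq ≃ₐ[K] Hq)).card)
    (hl4 : 4 ∣ pn ℓ - 1) {Pl : PrI L} (hPl : und K Pl = ℓ)
    (hunl : Algebra.IsUnramifiedAt (𝓞 K) Pl.asIdeal) {Fl : L ≃ₐ[K] L} (hFl : IsFrob K Pl Fl)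
    (hw : Real.sqrt (fibProd hHq uq (1 : H ≃ₐ[K] H)) ∈ L) {X : ℝ}
    (hX : X = Real.sqrt (fibProd hHq uq (1 : H ≃ₐ[K] H)) /
      act Fl⁻¹ (Real.sqrt (fibProd hHq uq (1 : H ≃ₐ[K] H)))) :
    X ^ 2 = fibProd (hHq.trans hqM) U (1 : H ≃ₐ[K] H) ∧ (X ∈ M → ∀ (P : PrI M), und K P = ℓ →
      ∀ lift : (Hq ≃ₐ[K] Hq) → (M ≃ₐ[K] M), (∀ δ, res hqM (lift δ) = δ) →
      rd P X = ∏ δ ∈ fib hHq (1 : H ≃ₐ[K] H),
        rd P (act (lift δ) U) ^ ((fib hqM (1 : Hq ≃ₐ[K] Hq)).card / 2)) := by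
  subst hn'
  have := hr.finite
  have := hr.galois
  have hle : m * q.asIdeal ≤ m := Ideal.mul_le_left
  have hne : m * q.asIdeal ≠ ⊥ := mul_ne_bot' hm q.ne_bot
  have ht : m * q.asIdeal ≠ ⊤ := ne_top_of_le_ne_top hm1 hle
  set φq := Artq (cls σ₂ _ (prJ (m * q.asIdeal) ℓ hlq)) with hφq
  have hφ : res hHL Fl = res hHq φq := by
    have e1 : STc.FrobAt ℓ L Fl := by rw [← hPl]; exact STc.frobAt_of_isFrob hFl
    obtain ⟨e2, e3⟩ := STc.frobAt_rcf hr hlm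
    rw [(e1.res hHL).unique e2 e3, hφq, IsRCF.res_art hle hne Set.finite_empty Set.finite_empty
      dq.rcf.isRCF hr.isRCF]
    rfl
  have hmem := dq.pre.mem
  have hposδ : ∀ δ : Hq ≃ₐ[K] Hq, 0 < act δ uq := dq.pre.pos
  have ha0 : 0 < fibProd hHq uq (1 : H ≃ₐ[K] H) := Finset.prod_pos fun γ _ => hposδ γ
  have haI : IsUn Hq (fibProd hHq uq (1 : H ≃ₐ[K] H)) :=
    isUn_prod fun γ _ => isUn_act (isUn_of_pre dq.pre) γ
  have hwU : IsUn L (Real.sqrt (fibProd hHq uq (1 : H ≃ₐ[K] H))) :=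
    isUn_sqrt haI.int.2 haI.inv.2 ha0 hw
  have hb := act_sqrt_sq hHq hHL hmem ha0 hw hφ
  constructor
  · rw [hX, div_pow, Real.sq_sqrt ha0.le, hb, ← fibProd_trans hHq hqM dM.pre.mem,
      norm_prime_rel h2 hσ hne ht hlq rfl dq dM hqM]
    unfold fibProd
    rw [← Finset.prod_div_distrib]
    exact Finset.prod_congr rfl fun γ _ => (act_div γ hmem (act_mem _ hmem)).symm
  · intro hXM P hP lift hlift
    have hbM : act Fl⁻¹ (Real.sqrt (fibProd hHq uq (1 : H ≃ₐ[K] H))) ^ 2 ∈ M := by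
      rw [hb]
      exact prod_mem fun γ _ => hqM (act_mem γ (act_mem _ hmem))
    have h3 := rd_ratio hunl hFl (P := P) (by rw [hP, hPl])
      (by rw [hP]; exact (by norm_num : 2 ∣ 4).trans hl4) hwU (by rw [← hX]; exact hXM) hbM
    rw [← hX, hb, hP] at h3
    have hI : ∀ δ : Hq ≃ₐ[K] Hq, IsInt M (act δ (act φq⁻¹ uq)) := fun δ =>
      ((isUn_act (isUn_act (isUn_of_pre dq.pre) φq⁻¹) δ).int).mono hqM
    rw [h3, STc.rd_prod fun δ _ => hI δ, ← Finset.prod_pow]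
    refine Finset.prod_congr rfl fun δ _ => ?_
    have h5 := ks h2 hσ hne ht hS hε₀ hε1 hε2 hε3 hlq dq dM hqM h4 hP (lift δ)
    rw [h5, ← act_res hqM (lift δ) (act_mem _ hmem), hlift]

/-- congruence for the square root of the norm, using the decomposition of the Galois group -/
lemma side' {m : Ideal (𝓞 K)} (hm : m ≠ ⊥) {q ℓ : PrI K} (hlq : ¬ ℓ.asIdeal ∣ m * q.asIdeal)
    {H Hq M : IntermediateField K ℝ}
    {Artq : RayClassGroup σ₂ (m * q.asIdeal) ≃* (Hq ≃ₐ[K] Hq)} {n' : Ideal (𝓞 K)}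
    (hn' : n' = m * q.asIdeal * ℓ.asIdeal) {ArtM : RayClassGroup σ₂ n' ≃* (M ≃ₐ[K] M)} {uq U : ℝ}
    (dq : SData σ₂ (m * q.asIdeal) Hq Artq uq)
    (dM : SData σ₂ n' M ArtM U) [FiniteDimensional K Hq] [IsAbelianGalois K Hq] [Normal K H]
    [FiniteDimensional K M] [IsAbelianGalois K M]
    (hHq : H ≤ Hq) (hqM : Hq ≤ M) (hHM : H ≤ M) {Q R : Subgroup (M ≃ₐ[K] M)}
    (hdec : ∀ (F : IntermediateField K ℝ) (hF : F ≤ M) [Normal K F] (D : Finset (F ≃ₐ[K] F)),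
        (∀ δ, δ ∈ D ↔ ∃ g ∈ (res hHM).ker, res hF g = δ) → Odd D.card →
        (∀ γ ∈ Q, res hF γ = 1) ∧
        ∀ (κ : Type) [CommMonoid κ] (f : (M ≃ₐ[K] M) → κ),
          (∀ g γ, γ ∈ (res hHM).ker → res hF γ = 1 → f (g * γ) = f g) →
          ∀ lift : (F ≃ₐ[K] F) → (M ≃ₐ[K] M),
          (∀ δ ∈ D, lift δ ∈ (res hHM).ker ∧ res hF (lift δ) = δ) →
          ∀ c : ℕ, (∀ s : Finset (M ≃ₐ[K] M),
            (∀ g, g ∈ s ↔ g ∈ (res hHM).ker ∧ res hF g = 1) → s.card = c) →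
          ∏ δ ∈ D, f (lift δ) ^ (c / 2) = (∏ ρ ∈ elts R, f ρ) ^ ((elts Q).card / 2))
    (hodd : Odd (fib hHq (1 : H ≃ₐ[K] H)).card) {X : ℝ}
    (hX : ∀ (P : PrI M), und K P = ℓ →
      ∀ lift : (Hq ≃ₐ[K] Hq) → (M ≃ₐ[K] M), (∀ δ, res hqM (lift δ) = δ) →
      rd P X = ∏ δ ∈ fib hHq (1 : H ≃ₐ[K] H),
        rd P (act (lift δ) U) ^ ((fib hqM (1 : Hq ≃ₐ[K] Hq)).card / 2))
    {P : PrI M} (hP : und K P = ℓ) :
    (∀ γ ∈ Q, ∀ x, IsInt M x → rd P (act γ x) = rd P x) ∧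
    rd P X = rd P (∏ ρ ∈ elts R, act ρ U) ^ ((elts Q).card / 2) := by
  subst hn'
  have hne : m * q.asIdeal ≠ ⊥ := mul_ne_bot' hm q.ne_bot
  have hUI : ∀ σ : M ≃ₐ[K] M, IsInt M (act σ U) := fun σ =>
    (isUn_act (isUn_of_pre dM.pre) σ).int
  have hinert : ∀ γ : M ≃ₐ[K] M, res hqM γ = 1 → ∀ x, IsInt M x → rd P (act γ x) = rd P x :=
    fun γ hγ x hx => rd_act_of_res_one hne hlq dq.rcf dM.rcf hqM hγ hP hx
  obtain ⟨hQ, hprod⟩ := hdec Hq hqM (fib hHq (1 : H ≃ₐ[K] H)) (by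
    intro δ
    rw [mem_fib]
    constructor
    · intro h
      obtain ⟨g, rfl⟩ := res_surjective hqM δ
      refine ⟨g, ?_, rfl⟩
      rw [MonoidHom.mem_ker, ← res_res hHq hqM, h]
    · rintro ⟨g, hg, rfl⟩
      rw [MonoidHom.mem_ker] at hg
      rw [res_res hHq hqM, hg]) hodd
  refine ⟨fun γ hγ => hinert γ (hQ γ hγ), ?_⟩
  have hlift : ∀ δ : Hq ≃ₐ[K] Hq, res hqM (Function.surjInv (res_surjective hqM) δ) = δ :=
    fun δ => Function.surjInv_eq _ δ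
  rw [hX P hP _ hlift, STc.rd_prod fun ρ _ => hUI ρ]
  refine hprod _ (fun g => rd P (act g U)) ?_ _ ?_ _ ?_
  · intro g γ _ hγ
    rw [mul_comm' g γ, act_comp γ g dM.pre.mem]
    exact hinert γ hγ _ (hUI g)
  · intro δ hδ
    rw [mem_fib] at hδ
    refine ⟨?_, hlift δ⟩
    rw [MonoidHom.mem_ker, ← res_res hHq hqM, hlift, hδ]
  · intro s hs
    congr 1
    ext g
    rw [hs, mem_fib, MonoidHom.mem_ker]
    refine ⟨fun h => h.2, fun h => ⟨?_, h⟩⟩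
    rw [← res_res hHq hqM, h, map_one]

lemma card_fib_ker {H M : IntermediateField K ℝ} (h : H ≤ M) [Normal K H]
    [FiniteDimensional K M] : (fib h (1 : H ≃ₐ[K] H)).card = Nat.card (res h).ker := by
  rw [← Nat.card_eq_finsetCard]
  refine Nat.card_congr (Equiv.subtypeEquivRight fun γ => ?_)
  rw [mem_fib, MonoidHom.mem_ker]

lemma card_elts {M : IntermediateField K ℝ} [FiniteDimensional K M]
    (Q : Subgroup (M ≃ₐ[K] M)) : (elts Q).card = Nat.card Q := by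
  rw [← Nat.card_eq_finsetCard]
  exact Nat.card_congr (Equiv.subtypeEquivRight fun γ => mem_elts)

lemma four_dvd' (h2 : Module.finrank ℚ K = 2) {m : Ideal (𝓞 K)} (hm : m ≠ ⊥)
    {u₀ : (𝓞 K)ˣ} (hu₀ : EU σ₂ m u₀) {q ℓ : PrI K} (hq : InertQ m u₀ q) (hℓ : InertQ m u₀ ℓ)
    (hlq : ¬ ℓ.asIdeal ∣ m * q.asIdeal) {Hq M : IntermediateField K ℝ}
    {Artq : RayClassGroup σ₂ (m * q.asIdeal) ≃* (Hq ≃ₐ[K] Hq)} {n' : Ideal (𝓞 K)}
    (hn' : n' = m * q.asIdeal * ℓ.asIdeal) {ArtM : RayClassGroup σ₂ n' ≃* (M ≃ₐ[K] M)}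
    (r : IsRayClassField σ₂ (m * q.asIdeal) Hq Artq) (r' : IsRayClassField σ₂ n' M ArtM)
    [Normal K Hq] [FiniteDimensional K M] (hqM : Hq ≤ M) :
    4 ∣ (fib hqM (1 : Hq ≃ₐ[K] Hq)).card := by
  subst hn'
  refine four_dvd_card (mul_ne_bot' hm q.ne_bot) hlq r r' hqM hℓ.four fun w hw => ?_
  obtain ⟨w', -, rfl⟩ := hq.pow4 h2 hm hu₀ hw
  exact ⟨Ideal.Quotient.mk ℓ.asIdeal w', by rw [Units.val_pow_eq_pow_val, map_pow]⟩

theorem pair_rel (h2 : Module.finrank ℚ K = 2) (hσ : σ₂ ≠ sg1 K) {m : Ideal (𝓞 K)} (hm : m ≠ ⊥)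
    (hm1 : m ≠ ⊤) {u₀ : (𝓞 K)ˣ} (hu₀ : EU σ₂ m u₀)
    (hpos : 0 < algebraMap K ℝ ((u₀ : 𝓞 K) : K)) (hns : ¬ IsSquare u₀)
    (hst : ∀ q : PrI K, InertQ m u₀ q → ∀ n : Ideal (𝓞 K), n ≠ ⊥ → n ≤ m * q.asIdeal →
      StarkTate σ₂ n)
    {H : IntermediateField K ℝ} {Art : RayClassGroup σ₂ m ≃* (H ≃ₐ[K] H)}
    (hr : IsRayClassField σ₂ m H Art) {q ℓ : PrI K} (hq : InertQ m u₀ q) (hℓ : InertQ m u₀ ℓ)
    (hqℓ : q ≠ ℓ) {Hq Hl : IntermediateField K ℝ}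
    {Artq : RayClassGroup σ₂ (m * q.asIdeal) ≃* (Hq ≃ₐ[K] Hq)}
    {Artl : RayClassGroup σ₂ (m * ℓ.asIdeal) ≃* (Hl ≃ₐ[K] Hl)} {uq ul : ℝ}
    (dq : SData σ₂ (m * q.asIdeal) Hq Artq uq) (dl : SData σ₂ (m * ℓ.asIdeal) Hl Artl ul)
    [FiniteDimensional K Hq] [FiniteDimensional K Hl] [Normal K H] (hHq : H ≤ Hq)
    (hHl : H ≤ Hl) {L : IntermediateField K ℝ} [FiniteDimensional K L] [IsAbelianGalois K L]
    (hHL : H ≤ L) {Pq Pl : PrI L} (hPq : und K Pq = q) (hPl : und K Pl = ℓ)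
    (hunq : Algebra.IsUnramifiedAt (𝓞 K) Pq.asIdeal)
    (hunl : Algebra.IsUnramifiedAt (𝓞 K) Pl.asIdeal) {Fq Fl : L ≃ₐ[K] L}
    (hFq : IsFrob K Pq Fq) (hFl : IsFrob K Pl Fl)
    (hwq : Real.sqrt (fibProd hHq uq 1) ∈ L) (hwl : Real.sqrt (fibProd hHl ul 1) ∈ L) :
    Real.sqrt (fibProd hHq uq 1) / act Fl⁻¹ (Real.sqrt (fibProd hHq uq 1)) =
      Real.sqrt (fibProd hHl ul 1) / act Fq⁻¹ (Real.sqrt (fibProd hHl ul 1)) := by
  have hlq : ¬ ℓ.asIdeal ∣ m * q.asIdeal := not_dvd_mul_prime hℓ.ndvd (Ne.symm hqℓ)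
  have hql : ¬ q.asIdeal ∣ m * ℓ.asIdeal := not_dvd_mul_prime hq.ndvd hqℓ
  have hneq : m * q.asIdeal ≠ ⊥ := mul_ne_bot' hm q.ne_bot
  have hne' : m * q.asIdeal * ℓ.asIdeal ≠ ⊥ := mul_ne_bot' hneq ℓ.ne_bot
  have hSD : ∀ q : PrI K, InertQ m u₀ q → ∀ n' : Ideal (𝓞 K), n' ≠ ⊥ → n' ≤ m * q.asIdeal →
      ∃ (H : IntermediateField K ℝ) (Art : RayClassGroup σ₂ n' ≃* (H ≃ₐ[K] H)) (u : ℝ),
        SData σ₂ n' H Art u := by
    intro q hq n' hn' hle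
    obtain ⟨H', Art', u', d'⟩ := (hst q hq n' hn' hle).data
    exact ⟨H', Art', u', d'.rcf, preStark_of_isSU d'.stark.isSU, d'.act⟩
  obtain ⟨M, ArtM, U, d⟩ := (hst q hq _ hne' Ideal.mul_le_left).data
  have dM : SData σ₂ (m * q.asIdeal * ℓ.asIdeal) M ArtM U :=
    ⟨d.rcf, preStark_of_isSU d.stark.isSU, d.act⟩
  have hfdM := dM.rcf.finite
  have habM : IsAbelianGalois K M := dM.rcf.isRCF.abelian
  have habq : IsAbelianGalois K Hq := dq.rcf.isRCF.abelian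
  have habl : IsAbelianGalois K Hl := dl.rcf.isRCF.abelian
  have hqM : Hq ≤ M := IsRCF.le Ideal.mul_le_left hne' Set.finite_empty Set.finite_empty
    dM.rcf.isRCF dq.rcf.isRCF
  have hlM : Hl ≤ M := IsRCF.le (by rw [mul_right_comm]; exact Ideal.mul_le_left) hne'
    Set.finite_empty Set.finite_empty dM.rcf.isRCF dl.rcf.isRCF
  have hHM : H ≤ M := hHq.trans hqM
  obtain ⟨ε₀, hε₀, hε1, hε2, hε3⟩ := exists_eps (σ₂ := σ₂) h2 hpos hu₀.2 hns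
  have h4q := four_dvd' h2 hm hu₀ hq hℓ hlq rfl dq.rcf dM.rcf hqM
  have h4l := four_dvd' h2 hm hu₀ hℓ hq hql (mul_right_comm _ _ _) dl.rcf dM.rcf hlM
  obtain ⟨hX2, hXr⟩ := side h2 hσ hm hm1 hℓ.ndvd hlq (hSD q hq) hε₀ hε1 hε2 hε3 rfl hr dq dM
    hHq hqM hHL h4q hℓ.four hPl hunl hFl hwq rfl
  obtain ⟨hY2, hYr⟩ := side h2 hσ hm hm1 hq.ndvd hql (hSD ℓ hℓ) hε₀ hε1 hε2 hε3
    (mul_right_comm _ _ _) hr dl dM hHl hlM hHL h4l hq.four hPq hunq hFq hwl rfl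
  set X := Real.sqrt (fibProd hHq uq (1 : H ≃ₐ[K] H)) /
    act Fl⁻¹ (Real.sqrt (fibProd hHq uq (1 : H ≃ₐ[K] H))) with hXdef
  set Y := Real.sqrt (fibProd hHl ul (1 : H ≃ₐ[K] H)) /
    act Fq⁻¹ (Real.sqrt (fibProd hHl ul (1 : H ≃ₐ[K] H))) with hYdef
  have h4 : 4 ∣ (elts (res hHM).ker).card := by
    rw [card_elts]
    rw [card_fib_ker] at h4q
    refine h4q.trans (Subgroup.card_dvd_of_le fun g hg => ?_)
    rw [MonoidHom.mem_ker] at hg ⊢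
    rw [← res_res hHq hqM, hg, map_one]
  obtain ⟨Q, R, hQ, hR, hprod, h4Q, hdec⟩ := exists_dec (res hHM).ker
    ((by norm_num : (2 : ℕ) ∣ 4).trans h4)
  have hUm := dM.pre.mem
  have hU0 := dM.pre.pos'
  have hfib : elts (res hHM).ker = fib hHM (1 : H ≃ₐ[K] H) := by
    ext g
    rw [mem_elts, mem_fib, MonoidHom.mem_ker]
  have hcase : ∀ Z : ℝ, Z ^ 2 = fibProd hHM U (1 : H ≃ₐ[K] H) → Z ∈ M := by
    intro Z hZ
    have := d.stark.ab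
    have h5 := prod_sqrt_mem hUm dM.pre.pos (fib hHM (1 : H ≃ₐ[K] H)) (by
      rw [← hfib]; exact even_iff_two_dvd.2 ((by norm_num : 2 ∣ 4).trans h4))
    have h6 : Z ^ 2 = (∏ γ ∈ fib hHM (1 : H ≃ₐ[K] H), Real.sqrt (act γ U)) ^ 2 := by
      rw [hZ, ← Finset.prod_pow]
      exact Finset.prod_congr rfl fun γ _ => (Real.sq_sqrt (dM.pre.pos γ).le).symm
    rcases sq_eq_sq_iff_eq_or_eq_neg.1 h6 with h7 | h7 <;> rw [h7]
    · exact h5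
    · exact neg_mem h5
  have hXM := hcase X hX2
  have hYM := hcase Y hY2
  obtain ⟨P₁, hP₁⟩ := STc.exists_over M ℓ
  obtain ⟨P₂, hP₂⟩ := STc.exists_over M q
  obtain ⟨hin₁, hX1⟩ := side' hm hlq rfl dq dM hHq hqM hHM hdec
    (hq.odd_fib hm hu₀ hr dq.rcf hHq) (hXr hXM) hP₁
  obtain ⟨hin₂, hY1⟩ := side' hm hql (mul_right_comm _ _ _) dl dM hHl hlM hHM hdec
    (hℓ.odd_fib hm hu₀ hr dl.rcf hHl) (hYr hYM) hP₂
  have hVprod : ∏ γ ∈ elts Q, act γ (∏ ρ ∈ elts R, act ρ U) = fibProd hHM U (1 : H ≃ₐ[K] H) := by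
    rw [fibProd, ← hfib, hprod]
    refine Finset.prod_congr rfl fun γ _ => ?_
    rw [act_prod γ _ _ fun ρ _ => act_mem ρ hUm]
    exact Finset.prod_congr rfl fun ρ _ => (act_comp γ ρ hUm).symm
  have hVpos : ∀ γ : M ≃ₐ[K] M, 0 < act γ (∏ ρ ∈ elts R, act ρ U) := by
    intro γ
    rw [act_prod γ _ _ fun ρ _ => act_mem ρ hUm]
    refine Finset.prod_pos fun ρ _ => ?_
    rw [← act_comp γ ρ hUm]
    exact dM.pre.pos _
  have hASU : AS K U := as_of_ab hUm hU0.le d.stark.ab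
  refine pab (isUn_prod fun ρ _ => isUn_act (isUn_of_pre dM.pre) ρ) hVpos ?_ Q (h4Q h4)
    (P₁ := P₁) (P₂ := P₂) (by rw [hP₁]; exact hℓ.odd) (by rw [hP₂]; exact hq.odd) hin₁ hin₂
    hXM hYM (by rw [hX2, hVprod]) (by rw [hY2, hVprod]) hX1 hY1
  exact AS.prod _ _ (fun ρ _ => (dM.pre.pos ρ).le)
    fun ρ _ => hASU.act hUm hU0.le ρ (dM.pre.pos ρ).le

end Pool.Agent.STe
end

section

/-!
# Removing a prime in the exceptional case: assembly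
-/

set_option linter.unusedSectionVars false

open NumberField IsDedekindDomain nonZeroDivisors IntermediateField

namespace Pool.Agent.STe

open Pool.Agent.ST Pool.Agent.STb Pool.Agent.STd
open Pool.Agent.STc (Unr FrobAt FrobAt.unique FrobAt.res frobAt_of_isFrob frobAt_rcf)

variable {K : Type*} [Field K] [NumberField K] [Algebra K ℝ] {σ₂ : K →+* ℝ}

/-- a big abelian extension containing finitely many square roots -/
lemma exists_big {ι : Type*} (s : Finset ι) (f : ι → ℝ) (H : IntermediateField K ℝ)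
    [FiniteDimensional K H] [IsAbelianGalois K H] (h : ∀ i ∈ s, AS K (f i)) :
    ∃ L : IntermediateField K ℝ, H ≤ L ∧ FiniteDimensional K L ∧ IsAbelianGalois K L ∧
      ∀ i ∈ s, Real.sqrt (f i) ∈ L := by
  classical
  induction s using Finset.induction_on with
  | empty => exact ⟨H, le_rfl, inferInstance, inferInstance, by simp⟩
  | insert a s ha ih =>
    obtain ⟨L, h1, h2, h3, h4⟩ := ih fun i hi => h i (Finset.mem_insert_of_mem hi)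
    obtain ⟨M, g1, g2, g3⟩ := h a (Finset.mem_insert_self _ _)
    refine ⟨L ⊔ M, h1.trans le_sup_left, inferInstance, isAbelianGalois_sup, ?_⟩
    intro i hi
    rcases Finset.mem_insert.1 hi with rfl | hi
    · exact (le_sup_right : M ≤ L ⊔ M) g3
    · exact (le_sup_left : L ≤ L ⊔ M) (h4 i hi)

/-- existence of inert primes -/
lemma exists_inert {m : Ideal (𝓞 K)} (hm : m ≠ ⊥) {u₀ : (𝓞 K)ˣ}
    (hpos : 0 < algebraMap K ℝ ((u₀ : 𝓞 K) : K)) (hns : ¬ IsSquare u₀)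
    {B : Set (PrI K)} (hB : B.Finite) : ∃ q : PrI K, InertQ m u₀ q ∧ q ∉ B := by
  set y : ℝ := Real.sqrt (algebraMap K ℝ ((u₀ : 𝓞 K) : K)) with hy
  have hy2 : y ^ 2 = algebraMap K ℝ ((u₀ : 𝓞 K) : K) := Real.sq_sqrt hpos.le
  have hyK : ∀ a : K, algebraMap K ℝ a ≠ y := by
    intro a ha
    apply hns
    apply unit_isSquare
    refine ⟨a, ?_⟩
    apply (algebraMap K ℝ).injective
    rw [map_mul, ha, ← pow_two, hy2]
  have hn : Normal K K⟮y⟯ := normal_adjoin_sqrt hy2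
  have hfd : FiniteDimensional K K⟮y⟯ := by
    apply adjoin.finiteDimensional
    refine ⟨Polynomial.X ^ 2 - Polynomial.C ((u₀ : 𝓞 K) : K), Polynomial.monic_X_pow_sub_C _
      (by norm_num), ?_⟩
    rw [Polynomial.eval₂_sub, Polynomial.eval₂_X_pow, Polynomial.eval₂_C, hy2, sub_self]
  have hyL : y ∈ K⟮y⟯ := mem_adjoin_simple_self K y
  have hKL : ∀ a : K, algebraMap K ℝ a ∈ K⟮y⟯ := fun a => K⟮y⟯.algebraMap_mem a
  have hact : ∀ γ : K⟮y⟯ ≃ₐ[K] K⟮y⟯, act γ y = y ∨ act γ y = -y := by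
    intro γ
    apply sq_eq_sq_iff_eq_or_eq_neg.1
    rw [← act_pow γ hyL, hy2, act_of_mem γ (hKL _)]
    have h3 : (⟨algebraMap K ℝ ((u₀ : 𝓞 K) : K), hKL _⟩ : K⟮y⟯) =
      algebraMap K K⟮y⟯ ((u₀ : 𝓞 K) : K) := rfl
    rw [h3, AlgEquiv.commutes]
    rfl
  have heq : ∀ γ δ : K⟮y⟯ ≃ₐ[K] K⟮y⟯, act γ y = act δ y → γ = δ := by
    intro γ δ h
    have h2 : K⟮y⟯ ≤ eqField γ δ := by
      rw [adjoin_simple_le_iff]
      exact ⟨hyL, h⟩
    apply eq_of_eq_on_sup (L₁ := K⟮y⟯) (L₂ := K⟮y⟯) (by simp) le_rfl le_rfl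
    · intro x hx; exact (h2 hx).2
    · intro x hx; exact (h2 hx).2
  have hneg : ∀ γ : K⟮y⟯ ≃ₐ[K] K⟮y⟯, act γ (-y) = -act γ y := by
    intro γ
    exact act_neg γ hyL
  have hab : IsAbelianGalois K K⟮y⟯ := by
    apply isAbelianGalois_of_comm
    intro γ δ
    apply heq
    rw [act_comp _ _ hyL, act_comp _ _ hyL]
    rcases hact γ with h1 | h1 <;> rcases hact δ with h2 | h2 <;>
      simp only [h1, h2, hneg]
  by_contra hcon
  push Not at hcon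
  have h1 := gen_inert (L := K⟮y⟯) hm hpos hns hB
  have h2 : {σ : K⟮y⟯ ≃ₐ[K] K⟮y⟯ | ∃ P : PrI K⟮y⟯, InertQ m u₀ (und K P) ∧ und K P ∉ B ∧
      Algebra.IsUnramifiedAt (𝓞 K) P.asIdeal ∧ IsFrob K P σ} = ∅ := by
    ext σ
    simp only [Set.mem_ofPred_eq, Set.mem_empty_iff_false, iff_false]
    rintro ⟨P, h3, h4, -, -⟩
    exact h4 (hcon _ h3)
  rw [h2, Subgroup.closure_empty] at h1
  have h5 : y ∈ (⊥ : IntermediateField K ℝ) := by
    apply mem_of_fixed (bot_le : ⊥ ≤ K⟮y⟯) hyL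
    intro γ _
    have h6 : γ ∈ (⊥ : Subgroup (K⟮y⟯ ≃ₐ[K] K⟮y⟯)) := by rw [h1]; exact Subgroup.mem_top γ
    rw [Subgroup.mem_bot] at h6
    rw [h6, act_one_left hyL]
  obtain ⟨a, ha⟩ := mem_bot.1 h5
  exact hyK a ha

lemma STData.sd {m : Ideal (𝓞 K)} {H : IntermediateField K ℝ}
    {Art : RayClassGroup σ₂ m ≃* (H ≃ₐ[K] H)} {u : ℝ} (h : STData σ₂ m H Art u) :
    SData σ₂ m H Art u :=
  ⟨h.rcf, preStark_of_isSU ⟨h.stark.mem, h.stark.pos, h.stark.int, h.stark.int_inv, h.stark.abs⟩,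
    h.act⟩

theorem exc_step (h2 : Module.finrank ℚ K = 2) (hσ : σ₂ ≠ sg1 K) {m : Ideal (𝓞 K)} (hm : m ≠ ⊥)
    (hm1 : m ≠ ⊤) {u₀ : (𝓞 K)ˣ} (hu₀ : EU σ₂ m u₀)
    (hpos : 0 < algebraMap K ℝ ((u₀ : 𝓞 K) : K)) (hns : ¬ IsSquare u₀)
    (hst : ∀ q : PrI K, InertQ m u₀ q → ∀ n : Ideal (𝓞 K), n ≠ ⊥ → n ≤ m * q.asIdeal →
      StarkTate σ₂ n) : StarkTate σ₂ m := by
  classical
  have hne : ∀ q : PrI K, m * q.asIdeal ≠ ⊥ := fun q => mul_ne_bot' hm q.ne_bot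
  have hle : ∀ q : PrI K, m * q.asIdeal ≤ m := fun q => Ideal.mul_le_left
  -- the ray class field
  obtain ⟨q₀, hq₀, -⟩ := exists_inert hm hpos hns Set.finite_empty
  obtain ⟨q₁, hq₁, hq₁'⟩ := exists_inert hm hpos hns (Set.finite_singleton q₀)
  have hq₁₀ : q₀ ≠ q₁ := fun h => hq₁' h.symm
  obtain ⟨_, _, _, d₀⟩ := (hst q₀ hq₀ _ (hne q₀) le_rfl).data
  obtain ⟨_, _, _, d₁⟩ := (hst q₁ hq₁ _ (hne q₁) le_rfl).data
  obtain ⟨H, Art, hr⟩ := exists_rcf hm hq₁₀ hq₀.ndvd hq₁.ndvd rfl rfl d₀.rcf d₁.rcf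
  have hfdH := hr.finite
  have habH := hr.isRCF.abelian
  -- the data at the inert primes
  choose F Art1 u hd using fun i : {q : PrI K // InertQ m u₀ q} =>
    (hst i.1 i.2 _ (hne i.1) le_rfl).data
  have hfd : ∀ i, FiniteDimensional K (F i) := fun i => (hd i).rcf.finite
  have hab : ∀ i, IsAbelianGalois K (F i) := fun i => (hd i).rcf.isRCF.abelian
  have hF : ∀ i, H ≤ F i := fun i => IsRCF.le (hle i.1) (hne i.1) Set.finite_empty Set.finite_empty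
    (hd i).rcf.isRCF hr.isRCF
  let φ : {q : PrI K // InertQ m u₀ q} → (H ≃ₐ[K] H) := fun i =>
    Art (cls σ₂ m (prJ m i.1 i.2.ndvd))
  let e : (H ≃ₐ[K] H) → ℝ := fun σ => Real.exp (-2 * zd σ₂ m (Art.symm σ))
  have epos : ∀ σ, 0 < e σ := fun σ => Real.exp_pos _
  have e0 : ∀ σ, e σ ≠ 0 := fun σ => (epos σ).ne'
  let _ : Fintype (RayClassGroup σ₂ m) := Fintype.ofEquiv _ Art.symm.toEquiv
  have eprod : ∏ σ, e σ = 1 := by
    rw [← Real.exp_sum, ← Finset.mul_sum]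
    have h3 : ∑ σ, zd σ₂ m (Art.symm σ) = ∑ A, zd σ₂ m A :=
      Equiv.sum_comp Art.symm.toEquiv _
    rw [h3, sum_zd h2 hσ hm hm1, mul_zero, Real.exp_zero]
  have hnorm : ∀ i σ, fibProd (hF i) (u i) σ = e σ / e (σ * (φ i)⁻¹) := by
    intro i σ
    obtain ⟨A, rfl⟩ := Art.surjective σ
    rw [fibProd_prime h2 hσ hm hm1 rfl hr (hd i).rcf (hF i) A (hd i).act (coe_prJ m i.1 i.2.ndvd)]
    have h3 : Art.symm (Art A * (φ i)⁻¹) = A * (cls σ₂ m (prJ m i.1 i.2.ndvd))⁻¹ := by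
      rw [MulEquiv.symm_apply_eq, map_mul, map_inv]
    simp only [e]
    rw [h3, MulEquiv.symm_apply_apply]
  -- Frobenius elements in `H`
  have hres : ∀ (L : IntermediateField K ℝ) (_ : FiniteDimensional K L) (_ : IsAbelianGalois K L)
      (hHL : H ≤ L) (P : PrI L) (σ : L ≃ₐ[K] L) (hq : InertQ m u₀ (und K P)), IsFrob K P σ →
      res hHL σ = φ ⟨und K P, hq⟩ := by
    intro L hLfd hLab hHL P σ hq hσP
    obtain ⟨g1, g2⟩ := frobAt_rcf hr hq.ndvd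
    exact FrobAt.unique g1 (FrobAt.res hHL (frobAt_of_isFrob hσP)) g2
  -- generation of the Galois group of `H`
  have hgen : Subgroup.closure (Set.range φ) = ⊤ := by
    rw [eq_top_iff, ← gen_inert (L := H) hm hpos hns Set.finite_empty, Subgroup.closure_le]
    rintro σ ⟨P, hq, -, -, hσP⟩
    apply Subgroup.subset_closure
    refine ⟨⟨und K P, hq⟩, ?_⟩
    rw [← hres H hfdH habH le_rfl P σ hq hσP, res_self]
  -- all ratios have abelian square roots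
  have hASu : ∀ i, AS K (u i) := fun i =>
    as_of_ab (hd i).stark.mem (hd i).stark.pos'.le (hd i).stark.ab
  have hASe : ∀ σ τ, AS K (e σ / e τ) := by
    apply rel_all (fun σ τ => AS K (e σ / e τ)) _ _ _ (Set.range φ) hgen
    · rintro _ ⟨i, rfl⟩ σ
      rw [← hnorm i σ]
      exact AS.fibProd (hF i) (hd i).stark.mem (hd i).stark.pos (hASu i) σ
    · intro a
      rw [div_self (e0 a)]; exact AS.one K
    · intro a b h
      have := h.inv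
      rwa [inv_div] at this
    · intro a b c h1 h2
      have := AS.mul (div_pos (epos a) (epos b)).le h1 h2
      rwa [div_mul_div_cancel₀ (e0 b)] at this
  obtain ⟨L, hHL, hLfd, hLab, hLs⟩ := exists_big Finset.univ (fun σ => e σ / e 1) H
    (fun σ _ => hASe σ 1)
  have hL : ∀ σ, Real.sqrt (e σ / e 1) ∈ L := fun σ => hLs σ (Finset.mem_univ σ)
  have hL1 : ∀ i, Real.sqrt (fibProd (hF i) (u i) 1) ∈ L := by
    intro i
    rw [hnorm i 1, one_mul, ← inv_div, Real.sqrt_inv]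
    exact inv_mem (hL _)
  -- the index set
  let ι := {q : PrI K // InertQ m u₀ q ∧ ∃ P : PrI L, und K P = q ∧
    Algebra.IsUnramifiedAt (𝓞 K) P.asIdeal}
  let J : ι → {q : PrI K // InertQ m u₀ q} := fun i => ⟨i.1, i.2.1⟩
  have hLnf := numberField_of_fd L
  choose P hP hPu using fun i : ι => i.2.2
  choose Φ hΦ using fun i : ι => exists_isFrob (K := K) (P i)
  have hgenL : ∀ i : ι, Subgroup.closure {g | ∃ j, j ≠ i ∧ Φ j = g} = ⊤ := by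
    intro i
    rw [eq_top_iff, ← gen_inert (L := L) hm hpos hns (Set.finite_singleton i.1),
      Subgroup.closure_le]
    rintro σ ⟨Q, hQ, hQi, hQu, hσQ⟩
    apply Subgroup.subset_closure
    refine ⟨⟨und K Q, hQ, Q, rfl, hQu⟩, fun h => hQi (congrArg Subtype.val h), ?_⟩
    have h3 := frobAt_of_isFrob (hΦ ⟨und K Q, hQ, Q, rfl, hQu⟩)
    exact isFrob_unique (h3 Q (hP ⟨und K Q, hQ, Q, rfl, hQu⟩).symm) hσQ
  have hΦφ : ∀ i : ι, res hHL (Φ i) = φ (J i) := by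
    intro i
    have hq : InertQ m u₀ (und K (P i)) := by rw [hP i]; exact i.2.1
    rw [hres L hLfd hLab hHL (P i) (Φ i) hq (hΦ i)]
    congr 1
    exact Subtype.ext (hP i)
  obtain ⟨hs, hact⟩ := core2 σ₂ hHL e epos eprod (fun i : ι => φ (J i)) (fun i => F (J i))
    (fun i => hF (J i)) (fun i => u (J i)) (fun i => (hd (J i)).stark)
    (fun i σ => hnorm (J i) σ) (by
      rw [eq_top_iff]
      have h3 : Subgroup.map (res hHL) (Subgroup.closure (Set.range Φ)) = ⊤ := by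
        have h4 : Subgroup.closure (Set.range Φ) = ⊤ := by
          by_cases hne : Nonempty ι
          · obtain ⟨i⟩ := hne
            rw [eq_top_iff, ← hgenL i]
            apply Subgroup.closure_mono
            rintro g ⟨j, -, rfl⟩
            exact ⟨j, rfl⟩
          · have h5 := gen_inert (L := L) hm hpos hns Set.finite_empty
            rw [eq_top_iff, ← h5, Subgroup.closure_le]
            rintro σ ⟨Q, hQ, -, hQu, -⟩
            exact absurd ⟨⟨und K Q, hQ, Q, rfl, hQu⟩⟩ hne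
        rw [h4, ← MonoidHom.range_eq_map, MonoidHom.range_eq_top]
        exact res_surjective hHL
      rw [← h3, MonoidHom.map_closure, Subgroup.closure_le]
      rintro _ ⟨_, ⟨i, rfl⟩, rfl⟩
      exact Subgroup.subset_closure ⟨i, (hΦφ i).symm⟩) hL Φ hΦφ hgenL (by
    intro i j hij
    have hij' : i.1 ≠ j.1 := fun h => hij (Subtype.ext h)
    exact pair_rel h2 hσ hm hm1 hu₀ hpos hns hst hr i.2.1 j.2.1 hij' (STData.sd (hd (J i)))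
      (STData.sd (hd (J j))) (hF (J i)) (hF (J j)) hHL (hP i) (hP j) (hPu i) (hPu j) (hΦ i) (hΦ j)
      (hL1 (J i)) (hL1 (J j)))
  have hdn : STData σ₂ m H Art (e 1) := by
    refine ⟨hr, hs, fun A => ?_⟩
    rw [hact]
    simp only [e]
    rw [MulEquiv.symm_apply_apply]
  exact hdn.starkTate h2 hσ hm hm1

end Pool.Agent.STe
end

section

/-!
# The square root condition follows from the conditions 1-3, for all moduli
-/

set_option linter.unusedSectionVars false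

open NumberField IsDedekindDomain nonZeroDivisors IntermediateField

namespace Pool.Agent.STe

open Pool.Agent.ST Pool.Agent.STb Pool.Agent.STd

variable {K : Type*} [Field K] [NumberField K] [Algebra K ℝ] {σ₂ : K →+* ℝ}

/-- **Removal of the condition on units.** -/
theorem remove_cond (h2 : Module.finrank ℚ K = 2) (hσ : σ₂ ≠ sg1 K) {m : Ideal (𝓞 K)}
    (hm : m ≠ ⊥) (hm1 : m ≠ ⊤)
    (h : ∀ n : Ideal (𝓞 K), n ≠ ⊥ → n ≤ m → UnitCond σ₂ n → StarkTate σ₂ n) :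
    StarkTate σ₂ m := by
  by_cases hU : UnitCond σ₂ m
  · exact h m hm le_rfl hU
  · unfold UnitCond at hU
    push Not at hU
    obtain ⟨u₀, hu1, hpos, hu2, -, hns⟩ := hU
    have hEU : EU σ₂ m u₀ := ⟨hu1, hu2⟩
    refine exc_step h2 hσ hm hm1 hEU hpos hns fun q hq n hn hle => ?_
    refine h n hn (hle.trans Ideal.mul_le_left) fun w hw1 _ hw2 _ => ?_
    obtain ⟨w', -, rfl⟩ := hq.pow4 h2 hm hEU (w := w) ⟨hle hw1, hw2⟩
    exact ⟨w' ^ 2, by rw [← pow_add]⟩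

/-- The Stark-Tate assertion at the highly divisible multiples of `n` implies the one at all
multiples. -/
theorem main2 (h2 : Module.finrank ℚ K = 2) (hσ : σ₂ ≠ sg1 K) {n : Ideal (𝓞 K)} (hn1 : n ≠ ⊤)
    (k : ℕ)
    (hst : ∀ m : Ideal (𝓞 K), m ≠ ⊥ → n ∣ m → k ≤ numPrimes m →
      (∀ v : HeightOneSpectrum (𝓞 K), v.asIdeal ∣ m → v.asIdeal ^ k ∣ m) → StarkTate σ₂ m) :
    ∀ m : Ideal (𝓞 K), m ≠ ⊥ → n ∣ m → StarkTate σ₂ m := by
  intro m hm hnm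
  refine remove_cond h2 hσ hm (ne_top_of_le_ne_top hn1 (Ideal.dvd_iff_le.1 hnm)) ?_
  intro n' hn' hle hU
  have hle' : n' ≤ n := hle.trans (Ideal.dvd_iff_le.1 hnm)
  exact main h2 hσ (ne_top_of_le_ne_top hn1 hle') (Or.inr hU) k (fun m' hm' hn'm' =>
    hst m' hm' ((Ideal.dvd_iff_le.2 hle').trans hn'm')) n' hn' dvd_rfl

/-- Density version. -/
theorem main2' (h2 : Module.finrank ℚ K = 2) (hσ : σ₂ ≠ sg1 K) {n : Ideal (𝓞 K)} (hn1 : n ≠ ⊤)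
    (k : ℕ)
    (hst : ∀ m : Ideal (𝓞 K), m ≠ ⊥ → n ∣ m → k ≤ numPrimes m →
      (∀ v : HeightOneSpectrum (𝓞 K), v.asIdeal ∣ m → v.asIdeal ^ k ∣ m) →
      ∃ c : ℝ, c < 1 / 8 ∧ DensLe {q : HeightOneSpectrum (𝓞 K) | ¬ q.asIdeal ∣ m ∧
        ¬ StarkTate σ₂ (m * q.asIdeal ^ k)} c) :
    ∀ m : Ideal (𝓞 K), m ≠ ⊥ → n ∣ m → StarkTate σ₂ m := by
  intro m hm hnm
  refine remove_cond h2 hσ hm (ne_top_of_le_ne_top hn1 (Ideal.dvd_iff_le.1 hnm)) ?_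
  intro n' hn' hle hU
  have hle' : n' ≤ n := hle.trans (Ideal.dvd_iff_le.1 hnm)
  exact ST.main2 h2 hσ (ne_top_of_le_ne_top hn1 hle') (Or.inr hU) k (fun m' hm' hn'm' =>
    hst m' hm' ((Ideal.dvd_iff_le.2 hle').trans hn'm')) n' hn' dvd_rfl

/-- **Main theorem.** -/
theorem full2 (h2 : Module.finrank ℚ K = 2) (hσ : σ₂ ≠ sg1 K) {n : Ideal (𝓞 K)} (hn1 : n ≠ ⊤)
    (k : ℕ)
    (hst : ∀ m : Ideal (𝓞 K), m ≠ ⊥ → n ∣ m → k ≤ numPrimes m →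
      (∀ v : HeightOneSpectrum (𝓞 K), v.asIdeal ∣ m → v.asIdeal ^ k ∣ m) → Stark σ₂ m) :
    ∀ m : Ideal (𝓞 K), m ≠ ⊥ → n ∣ m → StarkTate σ₂ m := by
  intro m hm hnm
  refine remove_cond h2 hσ hm (ne_top_of_le_ne_top hn1 (Ideal.dvd_iff_le.1 hnm)) ?_
  intro n' hn' hle hU
  have hle' : n' ≤ n := hle.trans (Ideal.dvd_iff_le.1 hnm)
  exact full h2 hσ (ne_top_of_le_ne_top hn1 hle') (Or.inr hU) k (fun m' hm' hn'm' =>
    hst m' hm' ((Ideal.dvd_iff_le.2 hle').trans hn'm')) n' hn' dvd_rfl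

end Pool.Agent.STe
end

section

/-!
# The square root condition follows from the conditions 1-3 at sparse moduli
-/

set_option linter.unusedSectionVars false

open NumberField IsDedekindDomain nonZeroDivisors IntermediateField

namespace Pool.Agent.STf

open Pool.Agent.ST Pool.Agent.STb Pool.Agent.STd

variable {K : Type*} [Field K] [NumberField K] [Algebra K ℝ] {σ₂ : K →+* ℝ}

section rem

variable {m : Ideal (𝓞 K)} {v : PrI K}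

theorem remove_vR (h : HypR σ₂ m v) (hU : (∀ w : (𝓞 K)ˣ, EU σ₂ m w → IsSquare w) ∨
    ((∀ v' : PrI K, (2 : 𝓞 K) ∈ v'.asIdeal → ¬ v'.asIdeal ∣ m) ∧ UnitCond σ₂ m)) :
    StarkTate σ₂ m := by
  have key4 : ∀ n : Ideal (𝓞 K), HypR σ₂ n v →
      (∀ w : (𝓞 K)ˣ, EU σ₂ n w → ∃ x : (𝓞 K)ˣ, w = x ^ 4) → StarkTate σ₂ n := by
    intro n hn hw
    refine final_stepR hn (EE_of_isSquare fun w hw' => ?_) (Or.inl hw)
    obtain ⟨x, rfl⟩ := hw w hw'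
    exact ⟨x ^ 2, by rw [← pow_add]⟩
  have key2 : ∀ n : Ideal (𝓞 K), HypR σ₂ n v →
      (∀ w : (𝓞 K)ˣ, EU σ₂ n w → IsSquare w) → StarkTate σ₂ n := by
    intro n hn hw
    refine final_stepR hn (EE_of_isSquare hw) (Or.inr fun n' hn' hle hv hw' => ?_)
    refine key4 n' (hn.mono hn' hle hv) fun w hw2 => ?_
    obtain ⟨w', h1, rfl⟩ := hw' w hw2
    obtain ⟨x, rfl⟩ := hw w' h1
    exact ⟨x, by rw [← pow_two, ← pow_mul]⟩
  rcases hU with hU | ⟨hodd, hU⟩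
  · exact key2 m h hU
  · refine final_stepR h (EE_of_unitCond h.h2 h.hσ hU hodd) (Or.inr fun n' hn' hle hv hw' => ?_)
    refine key2 n' (h.mono hn' hle hv) fun w hw2 => ?_
    obtain ⟨w', h1, rfl⟩ := hw' w hw2
    exact ⟨w', pow_two w'⟩

end rem

/-- All the multiples of `m`. -/
theorem full_auxR (h2 : Module.finrank ℚ K = 2) (hσ : σ₂ ≠ sg1 K) {m : Ideal (𝓞 K)}
    (hm1 : m ≠ ⊤)
    (hU : (∃ v : HeightOneSpectrum (𝓞 K), (2 : 𝓞 K) ∈ v.asIdeal ∧ v.asIdeal ∣ m) ∨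
      UnitCond σ₂ m)
    (hS : ∀ n : Ideal (𝓞 K), n ≠ ⊥ → n ≤ m → RatioP σ₂ n)
    (hT : ∀ n : Ideal (𝓞 K), n ≠ ⊥ → n ≤ m →
      (∀ v : HeightOneSpectrum (𝓞 K), (2 : 𝓞 K) ∈ v.asIdeal → v.asIdeal ∣ n) → StarkTate σ₂ n) :
    ∀ n : Ideal (𝓞 K), n ≠ ⊥ → n ≤ m → StarkTate σ₂ n := by
  classical
  have key : ∀ (d : ℕ) (n : Ideal (𝓞 K)), n ≠ ⊥ → n ≤ m →
      {v : PrI K | (2 : 𝓞 K) ∈ v.asIdeal ∧ ¬ v.asIdeal ∣ n}.ncard = d → StarkTate σ₂ n := by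
    intro d
    induction d using Nat.strong_induction_on with
    | _ d ih =>
      intro n hn hnm hd
      have hn1 : n ≠ ⊤ := ne_top_of_le_ne_top hm1 hnm
      have hfin : {v : PrI K | (2 : 𝓞 K) ∈ v.asIdeal ∧ ¬ v.asIdeal ∣ n}.Finite :=
        (finite_two K).subset fun v hv => hv.1
      by_cases hall : ∀ v : PrI K, (2 : 𝓞 K) ∈ v.asIdeal → v.asIdeal ∣ n
      · exact hT n hn hnm hall
      · push Not at hall
        obtain ⟨v, hv2, hvn⟩ := hall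
        have hyp : ∀ n' : Ideal (𝓞 K), n' ≠ ⊥ → n' ≤ n → ¬ v.asIdeal ∣ n' → HypR σ₂ n' v := by
          intro n' hn' hle hvn'
          refine ⟨h2, hσ, hn', ne_top_of_le_ne_top hn1 hle, hvn',
            fun n'' h3 h4 _ => ?_, fun n'' h3 h4 h5 => ?_⟩
          · obtain ⟨H, Art, hr, hR⟩ := hS n'' h3 (h4.trans (hle.trans hnm))
            exact ⟨H, Art, hr, hR⟩
          have hle' : n'' * v.asIdeal ≤ n := Ideal.mul_le_left.trans (h4.trans hle)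
          refine ih _ ?_ (n'' * v.asIdeal) (mul_ne_bot' h3 v.ne_bot) (hle'.trans hnm) rfl
          rw [← hd]
          apply Set.ncard_lt_ncard _ hfin
          refine ⟨?_, fun hss => ?_⟩
          · rintro w ⟨hw, hw'⟩
            refine ⟨hw, fun hwn => hw' ?_⟩
            exact hwn.trans (Ideal.dvd_iff_le.2 hle')
          · exact (hss ⟨hv2, hvn⟩).2 (dvd_mul_left _ _)
        by_cases hex : ∃ p : PrI K, (2 : 𝓞 K) ∈ p.asIdeal ∧ p.asIdeal ∣ n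
        · obtain ⟨p, hp2, hpn⟩ := hex
          obtain ⟨j, hj⟩ := exists_sq_level (σ₂ := σ₂) h2 hn hp2 hpn
          have hne : n * p.asIdeal ^ j ≠ ⊥ := mul_ne_bot' hn (pow_ne_zero _ p.ne_bot)
          have hle : n * p.asIdeal ^ j ≤ n := Ideal.mul_le_left
          have hdvd : ∀ w : PrI K, w.asIdeal ∣ n * p.asIdeal ^ j → w.asIdeal ∣ n :=
            fun w hw => (dvd_mul_pow_iff hpn).1 hw
          have h3 := remove_vR (hyp _ hne hle fun hh => hvn (hdvd v hh)) (Or.inl hj)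
          exact starkTate_same h2 hσ hle hne hn hn1 hdvd h3
        · push Not at hex
          have hU' : UnitCond σ₂ n := by
            rcases hU with ⟨p, hp2, hpm⟩ | hU
            · exact absurd (hpm.trans (Ideal.dvd_iff_le.2 hnm)) (hex p hp2)
            · exact hU.mono hnm
          exact remove_vR (hyp n hn le_rfl hvn) (Or.inr ⟨hex, hU'⟩)
  intro n hn hnm
  exact key _ n hn hnm rfl

/-- the assertion at sparse moduli gives the ratios -/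
theorem ratioP_of_genP (h2 : Module.finrank ℚ K = 2) (hσ : σ₂ ≠ sg1 K) {N : Ideal (𝓞 K)}
    (hN : N ≠ ⊥) (hN1 : N ≠ ⊤) {k : ℕ} (hG : GenP σ₂ (Stark σ₂) N k) : RatioP σ₂ N := by
  rcases k with _ | k
  · obtain ⟨⟨q₁, -, -, -, -, h₁, -⟩, -⟩ := hG
    rw [pow_zero, mul_one] at h₁
    exact h₁.ratioP
  · have hG1 : GenP σ₂ (Stark σ₂) N 1 := by
      refine hG.down le_rfl (fun v hv => hv) fun q hq hs => ?_
      have hqk : q.asIdeal ^ (k + 1) ≤ q.asIdeal := Ideal.pow_le_self (Nat.succ_ne_zero k)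
      rw [pow_one]
      refine stark_same h2 hσ (Ideal.mul_mono_right hqk) (mul_ne_bot' hN (pow_ne_bot' q.ne_bot _))
        (mul_ne_bot' hN q.ne_bot) (ne_top_of_le Ideal.mul_le_left hN1) (fun v hv => ?_) hs
      rcases v.prime.dvd_or_dvd hv with h | h
      · exact dvd_mul_of_dvd_left h _
      · exact dvd_mul_of_dvd_right (v.prime.dvd_of_dvd_pow h) _
    obtain ⟨H, Art, hr, hR⟩ := ratio_level h2 hσ hN hN1 hG1
    exact ⟨H, Art, hr, hR⟩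

/-- monotonicity in the assertion -/
lemma GenP.mono {P P' : Ideal (𝓞 K) → Prop} (hP : ∀ n, P n → P' n) {m : Ideal (𝓞 K)} {k : ℕ}
    (hG : GenP σ₂ P m k) : GenP σ₂ P' m k :=
  hG.down le_rfl (fun _ h => h) fun _ _ h => hP _ h

/-- the assertion at sparse moduli -/
def Sp (σ₂ : K →+* ℝ) (k : ℕ) (m : Ideal (𝓞 K)) : Prop :=
  GenP σ₂ (Stark σ₂) m k ∨
    ((∀ v : HeightOneSpectrum (𝓞 K), (2 : 𝓞 K) ∈ v.asIdeal → v.asIdeal ∣ m) ∧
      GenP σ₂ (RatioP σ₂) m k)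

lemma Sp.genP {k : ℕ} {m : Ideal (𝓞 K)} (h : Sp σ₂ k m) : GenP σ₂ (RatioP σ₂) m k := by
  rcases h with h | h
  · exact GenP.mono (fun _ h => h.ratioP) h
  · exact h.2

/-- At the moduli with many prime divisors. -/
theorem sparse_level (h2 : Module.finrank ℚ K = 2) (hσ : σ₂ ≠ sg1 K) {n : Ideal (𝓞 K)}
    (hn1 : n ≠ ⊤) (k : ℕ)
    (hst : ∀ m : Ideal (𝓞 K), m ≠ ⊥ → n ∣ m → k ≤ numPrimes m →
      (∀ v : HeightOneSpectrum (𝓞 K), v.asIdeal ∣ m → v.asIdeal ^ k ∣ m) → Sp σ₂ k m)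
    {m : Ideal (𝓞 K)} (hnm : n ∣ m) (hk : k ≤ numPrimes m)
    (hU : (∃ v : HeightOneSpectrum (𝓞 K), (2 : 𝓞 K) ∈ v.asIdeal ∧ v.asIdeal ∣ m) ∨
      UnitCond σ₂ m) :
    ∀ n' : Ideal (𝓞 K), n' ≠ ⊥ → n' ≤ m → StarkTate σ₂ n' := by
  have hm1 : m ≠ ⊤ := ne_top_of_le_ne_top hn1 (Ideal.dvd_iff_le.1 hnm)
  have hnum : ∀ n' : Ideal (𝓞 K), n' ≠ ⊥ → n' ≤ m → k ≤ numPrimes n' := by
    intro n' hn' hle
    refine hk.trans ?_
    unfold numPrimes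
    exact Set.ncard_le_ncard (fun w hw => (show w.asIdeal ∣ m from hw).trans
      (Ideal.dvd_iff_le.2 hle)) (finite_dvd hn')
  have hT : ∀ n' : Ideal (𝓞 K), n' ≠ ⊥ → n' ≤ m →
      (∀ v : HeightOneSpectrum (𝓞 K), (2 : 𝓞 K) ∈ v.asIdeal → v.asIdeal ∣ n') →
      StarkTate σ₂ n' := by
    intro n' hn' hle htwo
    refine Pool.Agent.STc.squareRoots h2 hσ htwo k (fun m' hm' hnm' hk' he => ?_) n' hn' dvd_rfl
    exact (hst m' hm' ((hnm.trans (Ideal.dvd_iff_le.2 hle)).trans hnm') hk' he).genP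
  refine full_auxR h2 hσ hm1 hU (fun n' hn' hle => ?_) hT
  have hn1' : n' ≠ ⊤ := ne_top_of_le_ne_top hm1 hle
  have hne : n' ^ (k + 1) ≠ ⊥ := pow_ne_zero _ hn'
  have hle' : n' ^ (k + 1) ≤ n' := Ideal.pow_le_self (by omega)
  have hne1 : n' ^ (k + 1) ≠ ⊤ := ne_top_of_le_ne_top hn1' hle'
  have hdvd : ∀ w : PrI K, w.asIdeal ∣ n' ^ (k + 1) → w.asIdeal ∣ n' :=
    fun w h => w.prime.dvd_of_dvd_pow h
  rcases hst _ hne ((hnm.trans (Ideal.dvd_iff_le.2 hle)).trans (dvd_pow_self _ (by omega)))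
    (hnum _ hne (hle'.trans hle)) (fun w hw => (pow_dvd_pow_of_dvd (hdvd w hw) k).trans
      (pow_dvd_pow n' (Nat.le_succ k))) with hG | ⟨htwo, -⟩
  · obtain ⟨H', Art', hr', hR'⟩ := ratioP_of_genP h2 hσ hne hne1 hG
    obtain ⟨H, Art, hd⟩ := RData.same h2 hσ hle' hne hn' hn1' hdvd (⟨hr', hR'⟩ : RData σ₂ _ H' Art')
    exact ⟨H, Art, hd.rcf, hd.ratio⟩
  · obtain ⟨H, Art, Z, ε, g1, g2, g3, g4, g5, -⟩ := hT n' hn' hle fun v hv => hdvd v (htwo v hv)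
    exact Stark.ratioP ⟨H, Art, Z, ε, g1, g2, g3, g4, g5⟩

end Pool.Agent.STf
end
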